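import Pool.Agent.N604.MW.Stm10

/-!
Project AD (helper604), part AKEY: the moment of `GD` over all blocks.
-/

set_option autoImplicit false

namespace Pool.Agent.N136.AD

open Finset MeasureTheory Filter Pool.Agent.N604.MW

theorem qq_nonneg (t : ℝ) : 0 ≤ qq t := by
  unfold qq; split_ifs <;> positivity

theorem qq_meas : Measurable qq := by
  unfold qq
  refine Measurable.ite ?_ measurable_const (by fun_prop)
  exact measurableSet_le (by fun_prop) measurable_const

theorem int_Q (h3 : S_DMEASQ) (g : ℕ) :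
    ∫⁻ γ : Fin g → ℝ, ENNReal.ofReal (∏ j, qq (γ j)) ≤ ENNReal.ofReal (6 ^ g) := by
  have h := h3 g 0 0 1 (fun i => i.elim0) (fun i => i.elim0) le_rfl one_pos (by simp)
  refine le_trans (le_of_eq ?_) (h.trans (le_of_eq (by simp)))
  apply lintegral_congr
  intro γ
  rw [Set.indicator_of_mem]
  intro i
  exact i.elim0

theorem GD_nonneg (n k X : ℕ) (γ : Fin n → ℝ) : 0 ≤ GD n k X γ := by
  unfold GD; exact Finset.sum_nonneg fun x _ => (Real.exp_pos _).le

theorem GD_le (n k X : ℕ) (γ : Fin n → ℝ) : GD n k X γ ≤ ((X : ℝ) + 1) ^ n := by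
  classical
  have hcard : ((Fintype.piFinset (fun _ : Fin n => Finset.Icc X (2 * X))).card : ℝ)
      = ((X : ℝ) + 1) ^ n := by
    rw [Fintype.card_piFinset]
    simp only [Nat.card_Icc, Finset.prod_const, Finset.card_univ, Fintype.card_fin]
    have : 2 * X + 1 - X = X + 1 := by omega
    rw [this]
    push_cast
    rfl
  unfold GD
  rw [← hcard, ← nsmul_one, ← Finset.sum_const]
  apply Finset.sum_le_sum
  intro x _
  apply Real.exp_le_one_iff.2
  have : 0 ≤ 2 * Real.pi ^ 2 * (∑ j, γ j * (x j : ℝ) ^ k) ^ 2 := by positivity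
  linarith

theorem NB_meas (n k r X : ℕ) : Measurable (NB n k r X) := by
  classical
  have e : NB n k r X = fun γ => ∑ j : Fin n, if (X : ℝ) ^ (-(k : ℝ) + r) ≤ |γ j| then 1 else 0 := by
    funext γ
    unfold NB
    rw [Finset.card_filter]
  rw [e]
  exact Finset.measurable_sum _ fun j _ =>
    Measurable.ite (measurableSet_le measurable_const (by fun_prop)) measurable_const measurable_const

theorem F_meas (n k X s : ℕ) :
    Measurable (fun γ : Fin n → ℝ => ENNReal.ofReal ((∏ j, qq (γ j)) * GD n k X γ ^ s)) := by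
  apply ENNReal.measurable_ofReal.comp
  apply Measurable.mul
  · exact Finset.measurable_prod _ fun j _ => qq_meas.comp (measurable_pi_apply j)
  · apply Measurable.pow_const
    unfold GD
    apply Continuous.measurable
    fun_prop

theorem akey (h2 : S_AKEY2) (h3 : S_AKEY3) (h4 : S_DMEASQ) : S_AKEY := by
  intro r m k s hr hrk h6 hnr hks hineq hlast
  obtain ⟨X0, hX0⟩ := h2 r m k s hr hrk hnr hks.le hineq
  obtain ⟨E, hE⟩ : ∃ E : ℝ, E = 2 * (m : ℝ) * ((s : ℝ) - k) - k - 1 := ⟨_, rfl⟩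
  have hsk : ((s - k : ℕ) : ℝ) = (s : ℝ) - k := by rw [Nat.cast_sub hks.le]
  have hlast' : 6 * (m : ℝ) * r + 3 * k * nr r + 5 * (k + 2) ≤ 4 * m * ((s : ℝ) - k) := by
    rw [← hsk]
    exact_mod_cast hlast
  have hm0 : (0 : ℝ) ≤ m := Nat.cast_nonneg _
  have hk0 : (0 : ℝ) ≤ k := Nat.cast_nonneg _
  have hr0 : (0 : ℝ) ≤ r := Nat.cast_nonneg _
  have hn0 : (0 : ℝ) ≤ nr r := Nat.cast_nonneg _
  have hmr : 0 ≤ (m : ℝ) * r := by positivity
  have hkn : 0 ≤ (k : ℝ) * nr r := by positivity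
  have hE1 : 1 ≤ E := by rw [hE]; nlinarith
  have hnrpos : 1 ≤ nr r := by
    unfold nr
    have : 0 < r := hr
    exact Nat.succ_le_of_lt (by positivity)
  have hm1 : 1 ≤ m := by omega
  -- the constants
  obtain ⟨K0, hK0⟩ : ∃ K0 : ℝ, K0 = ((X0 : ℝ) + 2) ^ (2 * m * s) * 6 ^ (2 * m) := ⟨_, rfl⟩
  obtain ⟨C1, hC1⟩ : ∃ C1 : ℝ, C1 = 24 ^ (2 * m) * 2 ^ (2 * m * s) := ⟨_, rfl⟩
  have hC10 : 0 ≤ C1 := by rw [hC1]; positivity
  have hev : ∀ᶠ ν : ℕ in atTop, max K0 C1 ≤ (2 : ℝ) ^ ν :=
    (tendsto_pow_atTop_atTop_of_one_lt (by norm_num : (1 : ℝ) < 2)).eventually_ge_atTop _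
  obtain ⟨ν0, hν0⟩ := eventually_atTop.1 hev
  refine ⟨ν0, fun ν hν a ha => ?_⟩
  have hP := hν0 ν hν
  obtain ⟨P, hPd⟩ : ∃ P : ℝ, P = (2 : ℝ) ^ ν := ⟨_, rfl⟩
  rw [← hPd] at hP
  have hP1 : 1 ≤ P := by
    rw [hPd]
    exact one_le_pow₀ (by norm_num)
  have hP0 : 0 < P := by linarith
  have hPE : (2 : ℝ) ^ ((ν : ℝ) * (2 * (m : ℝ) * ((s : ℝ) - k) - k - 1)) = P ^ E := by
    rw [hPd, hE, Real.rpow_mul (by norm_num), Real.rpow_natCast]
  have hη : (2 : ℝ) ^ (-((k : ℝ) * ν / 2)) = P ^ (-((k : ℝ) / 2)) := by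
    rw [hPd, ← Real.rpow_natCast, ← Real.rpow_mul (by norm_num)]
    congr 1
    ring
  rw [hPE, hη]
  have hPP : P ≤ P ^ E := by
    have := Real.rpow_le_rpow_of_exponent_le hP1 hE1
    rwa [Real.rpow_one] at this
  obtain ⟨X, hXd⟩ : ∃ X : ℕ, X = XB a := ⟨_, rfl⟩
  rw [← hXd]
  have hXP : (X : ℝ) ≤ P := by
    rw [hXd, hPd]
    unfold XB
    split_ifs
    · simp
    · push_cast
      exact pow_le_pow_right₀ (by norm_num) (by omega)
  rcases Nat.lt_or_ge X (max X0 1) with hX | hX
  · -- small `X`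
    have hX2 : (X : ℝ) + 1 ≤ (X0 : ℝ) + 2 := by
      have : X ≤ X0 + 1 := by omega
      have h5 : (X : ℝ) ≤ X0 + 1 := by exact_mod_cast this
      linarith
    have hb : ∀ γ : Fin (2 * m) → ℝ,
        {γ : Fin (2 * m) → ℝ | ∀ j, P ^ (-((k : ℝ) / 2)) ≤ |γ j|}.indicator
          (fun γ => ENNReal.ofReal ((∏ j, qq (γ j)) * GD (2 * m) k X γ ^ s)) γ ≤
        ENNReal.ofReal (((X0 : ℝ) + 2) ^ (2 * m * s)) * ENNReal.ofReal (∏ j, qq (γ j)) := by
      intro γ
      refine (Set.indicator_le_self _ _ _).trans ?_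
      rw [← ENNReal.ofReal_mul (by positivity)]
      apply ENNReal.ofReal_le_ofReal
      rw [mul_comm]
      apply mul_le_mul_of_nonneg_right _ (Finset.prod_nonneg fun j _ => qq_nonneg _)
      rw [pow_mul]
      apply pow_le_pow_left₀ (GD_nonneg _ _ _ _)
      exact (GD_le _ _ _ _).trans (pow_le_pow_left₀ (by positivity) hX2 _)
    refine (lintegral_mono hb).trans ?_
    rw [lintegral_const_mul' _ _ ENNReal.ofReal_ne_top]
    refine (mul_le_mul_right (int_Q h4 (2 * m)) _).trans ?_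
    rw [← ENNReal.ofReal_mul (by positivity)]
    apply ENNReal.ofReal_le_ofReal
    rw [← hK0]
    have h5 := (le_max_left K0 C1).trans hP
    linarith
  · -- large `X`
    have hXX0 : X0 ≤ X := le_trans (le_max_left _ _) hX
    have hX1 : 1 ≤ X := le_trans (le_max_right _ _) hX
    have hX1r : (1 : ℝ) ≤ X := by exact_mod_cast hX1
    have hA := hX0 X hXX0
    rw [← hE] at hA
    have hA' : ∫⁻ γ : Fin (2 * m) → ℝ, {γ : Fin (2 * m) → ℝ | nr r ≤ NB (2 * m) k r X γ}.indicator
        (fun γ => ENNReal.ofReal ((∏ j, qq (γ j)) * GD (2 * m) k X γ ^ s)) γ ≤ ENNReal.ofReal (P ^ E) :=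
      hA.trans (ENNReal.ofReal_le_ofReal (Real.rpow_le_rpow (by positivity) hXP (by linarith)))
    rcases lt_or_ge (P ^ 3) ((X : ℝ) ^ 5) with h5 | h5
    · -- all coordinates are large
      have hXlow : P ^ ((3 : ℝ) / 5) ≤ X := by
        have h7 : (P ^ ((3 : ℝ) / 5)) ^ 5 = P ^ 3 := by
          rw [← Real.rpow_natCast, ← Real.rpow_mul hP0.le, ← Real.rpow_natCast]
          norm_num
        rw [← h7] at h5
        exact (lt_of_pow_lt_pow_left₀ 5 (by positivity) h5).le
      have h8 : (X : ℝ) ^ (-(k : ℝ) + r) ≤ P ^ (-((k : ℝ) / 2)) := by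
        have h9 : -(k : ℝ) + r ≤ 0 := by
          have : (r : ℝ) + 8 ≤ k := by exact_mod_cast hrk
          linarith
        refine (Real.rpow_le_rpow_of_nonpos (by positivity) hXlow h9).trans ?_
        rw [← Real.rpow_mul hP0.le]
        apply Real.rpow_le_rpow_of_exponent_le hP1
        have : 6 * (r : ℝ) ≤ k := by exact_mod_cast h6
        linarith
      have hsub : {γ : Fin (2 * m) → ℝ | ∀ j, P ^ (-((k : ℝ) / 2)) ≤ |γ j|} ⊆
          {γ : Fin (2 * m) → ℝ | nr r ≤ NB (2 * m) k r X γ} := by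
        intro γ hγ
        simp only [Set.mem_setOf_eq] at hγ ⊢
        have : NB (2 * m) k r X γ = 2 * m := by
          unfold NB
          rw [Finset.filter_true_of_mem (fun j _ => h8.trans (hγ j))]
          simp
        rw [this]
        exact hnr
      refine (lintegral_mono fun γ => Set.indicator_le_indicator_of_subset hsub
        (fun _ => zero_le) γ).trans ?_
      refine hA'.trans (ENNReal.ofReal_le_ofReal ?_)
      have : 0 ≤ P ^ E := by positivity
      linarith
    · -- two parts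
      have hB := h3 r m k s X hX1 hr (by omega) hm1 hnr
      have hB' : (24 : ℝ) ^ (2 * m) * (2 * X) ^ (2 * m * s) *
          (X : ℝ) ^ (-(((k : ℝ) - r) * (2 * m - nr r))) ≤ P ^ E := by
        have hXup : (X : ℝ) ≤ P ^ ((3 : ℝ) / 5) := by
          have h7 : (P ^ ((3 : ℝ) / 5)) ^ 5 = P ^ 3 := by
            rw [← Real.rpow_natCast, ← Real.rpow_mul hP0.le, ← Real.rpow_natCast]
            norm_num
          rw [← h7] at h5
          exact le_of_pow_le_pow_left₀ (by norm_num) (by positivity) h5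
        have e1 : (24 : ℝ) ^ (2 * m) * (2 * X) ^ (2 * m * s) *
            (X : ℝ) ^ (-(((k : ℝ) - r) * (2 * m - nr r))) =
            C1 * (X : ℝ) ^ ((2 * m * s : ℝ) - ((k : ℝ) - r) * (2 * m - nr r)) := by
          have hXp : (0 : ℝ) < X := by linarith
          rw [hC1, mul_pow, Real.rpow_sub hXp, Real.rpow_neg hXp.le]
          have : (X : ℝ) ^ (2 * m * s : ℝ) = (X : ℝ) ^ (2 * m * s) := by
            rw [← Real.rpow_natCast]
            push_cast
            rfl
          rw [this]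
          ring
        rw [e1]
        obtain ⟨E2, hE2⟩ : ∃ E2 : ℝ, E2 = 2 * m * ((s : ℝ) - k) + 2 * m * r + k * nr r := ⟨_, rfl⟩
        have hE20 : 0 ≤ E2 := by rw [hE2]; nlinarith
        have h7 : (X : ℝ) ^ ((2 * m * s : ℝ) - ((k : ℝ) - r) * (2 * m - nr r)) ≤ (X : ℝ) ^ E2 := by
          apply Real.rpow_le_rpow_of_exponent_le hX1r
          rw [hE2]
          have : 0 ≤ (r : ℝ) * nr r := by positivity
          nlinarith
        have h8 : (X : ℝ) ^ E2 ≤ P ^ (E - 1) := by
          refine (Real.rpow_le_rpow (by positivity) hXup hE20).trans ?_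
          rw [← Real.rpow_mul hP0.le]
          apply Real.rpow_le_rpow_of_exponent_le hP1
          rw [hE2, hE]
          linarith
        have h9 : C1 ≤ P := (le_max_right K0 C1).trans hP
        calc C1 * (X : ℝ) ^ ((2 * m * s : ℝ) - ((k : ℝ) - r) * (2 * m - nr r))
            ≤ P * P ^ (E - 1) := mul_le_mul h9 (h7.trans h8) (by positivity) hP0.le
          _ = P ^ E := by
            rw [← Real.rpow_one_add' hP0.le (by linarith)]
            congr 1
            ring
      have hB'' := hB.trans (ENNReal.ofReal_le_ofReal hB')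
      have hpt : ∀ γ : Fin (2 * m) → ℝ,
          {γ : Fin (2 * m) → ℝ | ∀ j, P ^ (-((k : ℝ) / 2)) ≤ |γ j|}.indicator
            (fun γ => ENNReal.ofReal ((∏ j, qq (γ j)) * GD (2 * m) k X γ ^ s)) γ ≤
          {γ : Fin (2 * m) → ℝ | nr r ≤ NB (2 * m) k r X γ}.indicator
            (fun γ => ENNReal.ofReal ((∏ j, qq (γ j)) * GD (2 * m) k X γ ^ s)) γ +
          {γ : Fin (2 * m) → ℝ | NB (2 * m) k r X γ < nr r}.indicator
            (fun γ => ENNReal.ofReal ((∏ j, qq (γ j)) * GD (2 * m) k X γ ^ s)) γ := by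
        intro γ
        refine (Set.indicator_le_self _ _ _).trans ?_
        rcases Nat.lt_or_ge (NB (2 * m) k r X γ) (nr r) with h | h
        · rw [Set.indicator_of_notMem (by simpa using h), Set.indicator_of_mem (by simpa using h),
            zero_add]
        · rw [Set.indicator_of_mem (by simpa using h), Set.indicator_of_notMem (by simpa using h),
            add_zero]
      refine (lintegral_mono hpt).trans ?_
      rw [lintegral_add_left ((F_meas _ _ _ _).indicator
        (measurableSet_le measurable_const (NB_meas _ _ _ _)))]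
      refine (add_le_add hA' hB'').trans ?_
      rw [← ENNReal.ofReal_add (by positivity) (by positivity)]
      apply ENNReal.ofReal_le_ofReal
      have : 0 ≤ P ^ E := by positivity
      linarith

end Pool.Agent.N136.AD
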