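import Pool.Agent.N661.BR.Base

/-!
# BR/FIN: ergodic waves have finite fourth moments
-/

set_option autoImplicit false
open MeasureTheory Filter Topology Complex ProbabilityTheory
open scoped ContDiff

namespace Pool.Agent.N136.BRFIN

open Pool.Agent.N661.BR
open Pool.Agent.W745.RW (lap dx dy TF Dp Dm W Sol Sys)

/-- Cauchy-Schwarz with weights -/
theorem cs (x : ℕ → ℝ) (n : ℕ) :
    (∑ i ∈ Finset.range n, |x (i + 1) - x i|) ^ 2 ≤
      2 * ∑ i ∈ Finset.range n, 2 ^ i * (x (i + 1) - x i) ^ 2 := by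
  have h1 := Finset.sum_sq_le_sum_mul_sum_of_sq_le_mul (Finset.range n)
    (r := fun i => |x (i + 1) - x i|) (f := fun i => (1 / (2 : ℝ)) ^ i)
    (g := fun i => 2 ^ i * (x (i + 1) - x i) ^ 2) (fun i _ => by positivity)
    (fun i _ => by positivity) (fun i _ => by
      rw [← mul_assoc, ← mul_pow, sq_abs]
      norm_num)
  refine h1.trans (mul_le_mul_of_nonneg_right (sum_geometric_two_le n) ?_)
  exact Finset.sum_nonneg fun i _ => by positivity

theorem conv (x : ℕ → ℝ) (G : ℝ)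
    (hG : ∀ n, ∑ i ∈ Finset.range n, 2 ^ i * (x (i + 1) - x i) ^ 2 ≤ G) :
    ∃ a, Tendsto x atTop (𝓝 a) ∧ (x 0 - a) ^ 2 ≤ 2 * G := by
  have hs : ∀ n, (∑ i ∈ Finset.range n, |x (i + 1) - x i|) ^ 2 ≤ 2 * G := fun n =>
    (cs x n).trans (by have := hG n; linarith)
  have hsum : Summable fun i => |x (i + 1) - x i| := by
    refine summable_of_sum_range_le (c := √(2 * G)) (fun i => abs_nonneg _) fun n => ?_
    exact Real.le_sqrt_of_sq_le (hs n)
  have hc : CauchySeq x := by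
    refine cauchySeq_of_summable_dist ?_
    refine hsum.congr fun i => ?_
    rw [Nat.succ_eq_add_one, dist_comm, Real.dist_eq]
  obtain ⟨a, ha⟩ := cauchySeq_tendsto_of_complete hc
  refine ⟨a, ha, ?_⟩
  have hl : Tendsto (fun n => (x 0 - x n) ^ 2) atTop (𝓝 ((x 0 - a) ^ 2)) :=
    (tendsto_const_nhds.sub ha).pow 2
  refine le_of_tendsto hl (Eventually.of_forall fun n => ?_)
  refine le_trans ?_ (hs n)
  have h2 : |x 0 - x n| ≤ ∑ i ∈ Finset.range n, |x (i + 1) - x i| := by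
    have := dist_le_range_sum_dist x n
    rw [Real.dist_eq] at this
    refine this.trans (le_of_eq (Finset.sum_congr rfl fun i _ => ?_))
    rw [dist_comm, Real.dist_eq]
  rw [← sq_abs]
  exact pow_le_pow_left₀ (abs_nonneg _) h2 2

/-- the telescoping quantity -/
noncomputable def B (f : MW) (v : ℂ) (j : ℤ) (z : ℂ) : ℝ :=
  (v * (starRingEnd ℂ (W 1 f j z) * W 1 f (j + 1) z)).re

theorem fd_W (f : MW) (j : ℤ) (z v : ℂ) :
    fderiv ℝ (W 1 f j) z v =
      (v * W 1 f (j + 1) z - starRingEnd ℂ v * W 1 f (j - 1) z) / 2 := by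
  have hp : W 1 f (j + 1) z = fderiv ℝ (W 1 f j) z 1 - I * fderiv ℝ (W 1 f j) z I := by
    rw [← Dp_W f j z]
    unfold Dp
    simp
    rfl
  have hm : -W 1 f (j - 1) z = fderiv ℝ (W 1 f j) z 1 + I * fderiv ℝ (W 1 f j) z I := by
    rw [← Dm_W f j z]
    unfold Dm
    simp
    rfl
  have hv : fderiv ℝ (W 1 f j) z v =
      v.re * fderiv ℝ (W 1 f j) z 1 + v.im * fderiv ℝ (W 1 f j) z I := by
    have : v = v.re • (1 : ℂ) + v.im • I := by
      rw [real_smul, real_smul, mul_one]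
      exact (re_add_im v).symm
    conv_lhs => rw [this]
    rw [map_add, map_smul, map_smul, real_smul, real_smul]
  have hc : starRingEnd ℂ v = v.re - v.im * I := by
    apply Complex.ext <;> simp
  have hv2 : (v.re : ℂ) + v.im * I = v := re_add_im v
  rw [hv, hc]
  nth_rewrite 3 [← hv2]
  have hm' : W 1 f (j - 1) z = -(fderiv ℝ (W 1 f j) z 1 + I * fderiv ℝ (W 1 f j) z I) := by
    rw [← hm, neg_neg]
  rw [hp, hm']
  have hI : I * I = -1 := I_mul_I
  linear_combination ((v.im : ℂ) * fderiv ℝ (W 1 f j) z I) * hI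

theorem B_cont (f : MW) (v : ℂ) (j : ℤ) : Continuous (B f v j) := by
  unfold B
  have h1 := W_cont f j
  have h2 := W_cont f (j + 1)
  fun_prop

theorem B_le (f : MW) (v : ℂ) (j : ℤ) (z : ℂ) :
    |B f v j z| ≤ ‖v‖ * (‖W 1 f j z‖ ^ 2 + ‖W 1 f (j + 1) z‖ ^ 2) := by
  unfold B
  refine (abs_re_le_norm _).trans ?_
  rw [norm_mul, norm_mul, RCLike.norm_conj]
  refine mul_le_mul_of_nonneg_left ?_ (norm_nonneg _)
  nlinarith [sq_nonneg (‖W 1 f j z‖ - ‖W 1 f (j + 1) z‖), sq_nonneg (‖W 1 f j z‖),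
    sq_nonneg (‖W 1 f (j + 1) z‖)]

theorem hd_one (f : MW) (v : ℂ) (j : ℤ) (t : ℝ) :
    HasDerivAt (fun t : ℝ => ‖W 1 f j (t * v)‖ ^ 2)
      (B f v j (t * v) - B f v (j - 1) (t * v)) t := by
  have hd : Differentiable ℝ (W 1 f j) := (W_smooth f j).differentiable (by simp)
  have h1 : HasDerivAt (fun t : ℝ => (t : ℂ) * v) v t := by
    have := (Complex.ofRealCLM.hasDerivAt (x := t)).mul_const v
    simpa using this
  have h2 : HasDerivAt (fun t : ℝ => W 1 f j (t * v)) (fderiv ℝ (W 1 f j) (t * v) v) t :=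
    ((hd (t * v)).hasFDerivAt).comp_hasDerivAt t h1
  have h3 := h2.norm_sq
  refine h3.congr_deriv ?_
  rw [fd_W, Complex.inner]
  unfold B
  rw [sub_add_cancel]
  have e1 : starRingEnd ℂ (W 1 f j (t * v)) * ((v * W 1 f (j + 1) (t * v) -
      starRingEnd ℂ v * W 1 f (j - 1) (t * v)) / 2) =
      (1 / 2 : ℝ) • (v * (starRingEnd ℂ (W 1 f j (t * v)) * W 1 f (j + 1) (t * v)) -
        starRingEnd ℂ (v * (starRingEnd ℂ (W 1 f (j - 1) (t * v)) * W 1 f j (t * v)))) := by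
    rw [real_smul, map_mul, map_mul, Complex.conj_conj]
    push_cast
    ring
  rw [mul_comm (_ / 2) _, e1, smul_re, sub_re, conj_re, smul_eq_mul]
  ring

/-- the sum of the `|W_j|²`, `j < n` -/
noncomputable def T (n : ℕ) (f : MW) (z : ℂ) : ℝ :=
  ∑ j ∈ Finset.range n, ‖W 1 f (j : ℤ) z‖ ^ 2

theorem hd_T (f : MW) (v : ℂ) (n : ℕ) (t : ℝ) :
    HasDerivAt (fun t : ℝ => T n f (t * v))
      (B f v ((n : ℤ) - 1) (t * v) - B f v (-1) (t * v)) t := by
  induction n with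
  | zero =>
    have : (fun t : ℝ => T 0 f (t * v)) = fun _ => 0 := by
      funext t
      simp [T]
    rw [this]
    have h := hasDerivAt_const t (0 : ℝ)
    refine h.congr_deriv ?_
    simp
  | succ n ih =>
    have : (fun t : ℝ => T (n + 1) f (t * v)) =
        fun t : ℝ => T n f (t * v) + ‖W 1 f (n : ℤ) (t * v)‖ ^ 2 := by
      funext t
      simp [T, Finset.sum_range_succ]
    rw [this]
    refine (ih.add (hd_one f v n t)).congr_deriv ?_
    have : ((n + 1 : ℕ) : ℤ) - 1 = n := by push_cast; ring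
    rw [this]
    ring

theorem AV_T (f : MW) (N : ℕ) (z : ℂ) :
    AV 0 N f z + AV 1 N f z = 1 / (N : ℝ) * T (2 * N) f z := by
  unfold AV T
  rw [← mul_add]
  congr 1
  induction N with
  | zero => simp
  | succ N ih =>
    rw [Finset.sum_range_succ, Finset.sum_range_succ, show 2 * (N + 1) = 2 * N + 1 + 1 by ring,
      Finset.sum_range_succ, Finset.sum_range_succ, ← ih]
    push_cast
    rw [add_zero]
    ring

/-- the bound of the derivative of `T` -/
noncomputable def Q (n : ℕ) (f : MW) (z : ℂ) : ℝ :=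
  (‖W 1 f ((n : ℤ) - 1) z‖ ^ 2 + ‖W 1 f n z‖ ^ 2) + (‖W 1 f (-1) z‖ ^ 2 + ‖W 1 f 0 z‖ ^ 2)

theorem Q_cont (n : ℕ) (f : MW) : Continuous (Q n f) := by
  unfold Q
  exact (((W_cont f _).norm.pow 2).add ((W_cont f _).norm.pow 2)).add
    (((W_cont f _).norm.pow 2).add ((W_cont f _).norm.pow 2))

theorem meas_sq (a : ℤ) (z : ℂ) : Measurable (fun f : MW => ‖W 1 f a z‖ ^ 2) :=
  (meas_W a z).norm.pow_const 2

theorem meas_Q (n : ℕ) (z : ℂ) : Measurable (fun f : MW => Q n f z) :=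
  (((meas_sq _ z).add (meas_sq _ z))).add ((meas_sq _ z).add (meas_sq _ z))

theorem T_diff (f : MW) (v : ℂ) (n : ℕ) :
    ENNReal.ofReal |T n f v - T n f 0| ≤
      ∫⁻ t in Set.Ioc (0 : ℝ) 1, ENNReal.ofReal (‖v‖ * Q n f (t * v)) := by
  have hc : Continuous fun t : ℝ => B f v ((n : ℤ) - 1) (t * v) - B f v (-1) (t * v) := by
    have h1 := B_cont f v ((n : ℤ) - 1)
    have h2 := B_cont f v (-1)
    have h3 : Continuous fun t : ℝ => (t : ℂ) * v := by fun_prop
    exact (h1.comp h3).sub (h2.comp h3)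
  have h1 : ∫ t in (0 : ℝ)..1, (B f v ((n : ℤ) - 1) (t * v) - B f v (-1) (t * v)) =
      T n f v - T n f 0 := by
    have := intervalIntegral.integral_eq_sub_of_hasDerivAt (a := 0) (b := 1)
      (f := fun t : ℝ => T n f (t * v)) (fun t _ => hd_T f v n t) (hc.intervalIntegrable _ _)
    simpa using this
  rw [← h1, intervalIntegral.integral_of_le zero_le_one, ← Real.norm_eq_abs,
    ofReal_norm]
  refine (enorm_integral_le_lintegral_enorm _).trans (lintegral_mono fun t => ?_)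
  rw [← ofReal_norm]
  refine ENNReal.ofReal_le_ofReal ?_
  refine (norm_sub_le _ _).trans ?_
  rw [Real.norm_eq_abs, Real.norm_eq_abs]
  have h2 := B_le f v ((n : ℤ) - 1) (t * v)
  have h3 := B_le f v (-1) (t * v)
  rw [sub_add_cancel] at h2
  have e0 : (-1 : ℤ) + 1 = 0 := by norm_num
  rw [e0] at h3
  unfold Q
  rw [mul_add]
  exact add_le_add h2 h3

theorem lint4 (μ : Measure MW) (K : ENNReal) (a b c d : MW → ENNReal) (ha : Measurable a)
    (hb : Measurable b) (hc : Measurable c) (hd : Measurable d) :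
    ∫⁻ f, K * ((a f + b f) + (c f + d f)) ∂μ =
      K * ((∫⁻ f, a f ∂μ + ∫⁻ f, b f ∂μ) + (∫⁻ f, c f ∂μ + ∫⁻ f, d f ∂μ)) := by
  have h1 : Measurable fun f => a f + b f := ha.add hb
  have h2 : Measurable fun f => c f + d f := hc.add hd
  have h3 : Measurable fun f => (a f + b f) + (c f + d f) := h1.add h2
  rw [lintegral_const_mul _ h3, lintegral_add_left h1, lintegral_add_left ha,
    lintegral_add_left hc]

theorem T_int (μ : Measure MW) [IsProbabilityMeasure μ] (m : ℝ)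
    (hm : ∀ (a : ℤ) (w : ℂ), ∫⁻ f : MW, ENNReal.ofReal (‖W 1 f a w‖ ^ 2) ∂μ ≤ ENNReal.ofReal m)
    (v : ℂ) (n : ℕ) :
    ∫⁻ f : MW, ENNReal.ofReal |T n f v - T n f 0| ∂μ ≤
      ENNReal.ofReal ‖v‖ * (4 * ENNReal.ofReal m) := by
  have hmeas : Measurable (Function.uncurry fun (t : ℝ) (f : MW) => ‖v‖ * Q n f (t * v)) := by
    refine measurable_uncurry_of_continuous_of_measurable (fun f => ?_) fun t => ?_
    · have h3 : Continuous fun t : ℝ => (t : ℂ) * v := by fun_prop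
      exact ((Q_cont n f).comp h3).const_mul _
    · exact (meas_Q n _).const_mul _
  calc ∫⁻ f : MW, ENNReal.ofReal |T n f v - T n f 0| ∂μ
      ≤ ∫⁻ f : MW, (∫⁻ t in Set.Ioc (0 : ℝ) 1, ENNReal.ofReal (‖v‖ * Q n f (t * v))) ∂μ :=
        lintegral_mono fun f => T_diff f v n
    _ = ∫⁻ t in Set.Ioc (0 : ℝ) 1, (∫⁻ f : MW, ENNReal.ofReal (‖v‖ * Q n f (t * v)) ∂μ) := by
        refine (lintegral_lintegral_swap (μ := volume.restrict (Set.Ioc (0 : ℝ) 1)) (ν := μ)
          (f := fun (t : ℝ) (f : MW) => ENNReal.ofReal (‖v‖ * Q n f (t * v))) ?_).symm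
        exact (ENNReal.measurable_ofReal.comp hmeas).aemeasurable
    _ ≤ ∫⁻ t in Set.Ioc (0 : ℝ) 1, ENNReal.ofReal ‖v‖ * (4 * ENNReal.ofReal m) := by
        refine lintegral_mono fun t => ?_
        have e : ∀ f : MW, ENNReal.ofReal (‖v‖ * Q n f (t * v)) = ENNReal.ofReal ‖v‖ *
            ((ENNReal.ofReal (‖W 1 f ((n : ℤ) - 1) (t * v)‖ ^ 2) +
              ENNReal.ofReal (‖W 1 f n (t * v)‖ ^ 2)) +
              (ENNReal.ofReal (‖W 1 f (-1) (t * v)‖ ^ 2) +
              ENNReal.ofReal (‖W 1 f 0 (t * v)‖ ^ 2))) := by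
          intro f
          rw [ENNReal.ofReal_mul (norm_nonneg _)]
          congr 1
          unfold Q
          rw [ENNReal.ofReal_add (by positivity) (by positivity),
            ENNReal.ofReal_add (by positivity) (by positivity),
            ENNReal.ofReal_add (by positivity) (by positivity)]
        simp only [e]
        have hM : ∀ (a : ℤ) (z : ℂ), Measurable fun f : MW => ENNReal.ofReal (‖W 1 f a z‖ ^ 2) :=
          fun a z => (meas_sq a z).ennreal_ofReal
        refine (lint4 μ _ _ _ _ _ (hM _ _) (hM _ _) (hM _ _) (hM _ _)).le.trans ?_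
        refine mul_le_mul_right ?_ _
        calc _ ≤ (ENNReal.ofReal m + ENNReal.ofReal m) + (ENNReal.ofReal m + ENNReal.ofReal m) :=
              add_le_add (add_le_add (hm _ _) (hm _ _)) (add_le_add (hm _ _) (hm _ _))
          _ = 4 * ENNReal.ofReal m := by ring
    _ = ENNReal.ofReal ‖v‖ * (4 * ENNReal.ofReal m) := by
        rw [lintegral_const, Measure.restrict_apply_univ, Real.volume_Ioc]
        simp

/-- the sum of the two averages -/
noncomputable def M (k : ℕ) (f : ℂ → ℝ) (z : ℂ) : ℝ := AV 0 (4 ^ k) f z + AV 1 (4 ^ k) f z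

theorem M_T (k : ℕ) (f : MW) (z : ℂ) : M k f z = 1 / (4 : ℝ) ^ k * T (2 * 4 ^ k) f z := by
  unfold M
  rw [AV_T]
  push_cast
  rfl

theorem meas_AV (p : ℤ) (N : ℕ) (z : ℂ) : Measurable (fun f : MW => AV p N f z) := by
  unfold AV
  exact (Finset.measurable_sum _ fun j _ => meas_sq _ z).const_mul _

theorem meas_M (k : ℕ) (z : ℂ) : Measurable (fun f : MW => M k f z) :=
  (meas_AV _ _ _).add (meas_AV _ _ _)

theorem M_int (μ : Measure MW) [IsProbabilityMeasure μ] (m : ℝ)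
    (hm : ∀ (a : ℤ) (w : ℂ), ∫⁻ f : MW, ENNReal.ofReal (‖W 1 f a w‖ ^ 2) ∂μ ≤ ENNReal.ofReal m)
    (v : ℂ) (k : ℕ) :
    ∫⁻ f : MW, ENNReal.ofReal |M k f v - M k f 0| ∂μ ≤
      ENNReal.ofReal ((1 / 4) ^ k) * (ENNReal.ofReal ‖v‖ * (4 * ENNReal.ofReal m)) := by
  have e : ∀ f : MW, ENNReal.ofReal |M k f v - M k f 0| =
      ENNReal.ofReal ((1 / 4) ^ k) *
        ENNReal.ofReal |T (2 * 4 ^ k) f v - T (2 * 4 ^ k) f 0| := by
    intro f
    rw [← ENNReal.ofReal_mul (by positivity), M_T, M_T, ← mul_sub, abs_mul]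
    congr 2
    rw [abs_of_nonneg (by positivity), one_div_pow]
  simp only [e]
  rw [lintegral_const_mul']
  · exact mul_le_mul_right (T_int μ m hm v _) _
  · exact ENNReal.ofReal_ne_top

theorem M_ae (μ : Measure MW) [IsProbabilityMeasure μ] (m : ℝ)
    (hm : ∀ (a : ℤ) (w : ℂ), ∫⁻ f : MW, ENNReal.ofReal (‖W 1 f a w‖ ^ 2) ∂μ ≤ ENNReal.ofReal m)
    (v : ℂ) : ∀ᵐ f : MW ∂μ, Tendsto (fun k => M k f v - M k f 0) atTop (𝓝 0) := by
  have hM : ∀ k, Measurable fun f : MW => ENNReal.ofReal |M k f v - M k f 0| := fun k => by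
    have := ((meas_M k v).sub (meas_M k 0)).norm
    simp only [Real.norm_eq_abs] at this
    exact this.ennreal_ofReal
  have h1 : ∫⁻ f : MW, ∑' k : ℕ, ENNReal.ofReal |M k f v - M k f 0| ∂μ ≠ ⊤ := by
    rw [lintegral_tsum fun k => (hM k).aemeasurable]
    refine ne_top_of_le_ne_top ?_ (ENNReal.tsum_le_tsum fun k => M_int μ m hm v k)
    rw [ENNReal.tsum_mul_right]
    refine ENNReal.mul_ne_top ?_ (ENNReal.mul_ne_top ENNReal.ofReal_ne_top
      (ENNReal.mul_ne_top (by simp) ENNReal.ofReal_ne_top))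
    rw [← ENNReal.ofReal_tsum_of_nonneg (fun k => by positivity)
      (summable_geometric_of_lt_one (by norm_num) (by norm_num))]
    exact ENNReal.ofReal_ne_top
  have h2 := ae_lt_top (Measurable.tsum hM) h1
  filter_upwards [h2] with f hf
  have h3 := ENNReal.tendsto_atTop_zero_of_tsum_ne_top hf.ne
  have h4 : Tendsto (fun k => |M k f v - M k f 0|) atTop (𝓝 0) := by
    have := (ENNReal.tendsto_toReal ENNReal.zero_ne_top).comp h3
    refine this.congr fun k => ?_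
    simp only [Function.comp_apply]
    rw [ENNReal.toReal_ofReal (abs_nonneg _)]
  exact (tendsto_zero_iff_abs_tendsto_zero _).2 h4

/-- the quadratic variation of the averages -/
noncomputable def g (p : ℤ) (f : MW) : ENNReal := ∑' k : ℕ, (2 : ENNReal) ^ k *
  ENNReal.ofReal ((AV p (4 ^ (k + 1)) f 0 - AV p (4 ^ k) f 0) ^ 2)

theorem meas_term (p : ℤ) (k : ℕ) : Measurable fun f : MW => (2 : ENNReal) ^ k *
    ENNReal.ofReal ((AV p (4 ^ (k + 1)) f 0 - AV p (4 ^ k) f 0) ^ 2) :=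
  ((((meas_AV p _ 0).sub (meas_AV p _ 0)).pow_const 2).ennreal_ofReal).const_mul _

theorem meas_g (p : ℤ) : Measurable (g p) := Measurable.tsum (meas_term p)

theorem g_int (μ : Measure MW) (p : ℤ) : ∫⁻ f, g p f ∂μ = ∑' k : ℕ, (2 : ENNReal) ^ k *
    (∫⁻ f : MW, ENNReal.ofReal ((AV p (4 ^ (k + 1)) f 0 - AV p (4 ^ k) f 0) ^ 2) ∂μ) := by
  unfold g
  rw [lintegral_tsum fun k => (meas_term p k).aemeasurable]
  refine tsum_congr fun k => ?_
  rw [lintegral_const_mul' _ _ (by simp)]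

theorem g_conv (p : ℤ) (f : MW) (hf : g p f < ⊤) :
    ∃ a, Tendsto (fun k => AV p (4 ^ k) f 0) atTop (𝓝 a) ∧
      (AV p (4 ^ 0) f 0 - a) ^ 2 ≤ 2 * (g p f).toReal := by
  refine conv (fun k => AV p (4 ^ k) f 0) _ fun n => ?_
  rw [← ENNReal.ofReal_le_iff_le_toReal hf.ne, ENNReal.ofReal_sum_of_nonneg fun i _ => by positivity]
  unfold g
  refine le_trans (le_of_eq (Finset.sum_congr rfl fun i _ => ?_))
    (ENNReal.sum_le_tsum (Finset.range n))
  rw [ENNReal.ofReal_mul (by positivity), ENNReal.ofReal_pow (by norm_num)]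
  norm_num

theorem AV_nonneg (p : ℤ) (N : ℕ) (f : ℂ → ℝ) (z : ℂ) : 0 ≤ AV p N f z := by
  unfold AV
  positivity

theorem AV_shift (p : ℤ) (N : ℕ) (f : MW) (x : ℂ) : AV p N (shift x f) 0 = AV p N f x := by
  unfold AV
  congr 1
  refine Finset.sum_congr rfl fun j _ => ?_
  rw [W_shift, zero_add]

theorem AV_one (f : MW) : AV 0 (4 ^ 0) f 0 = f 0 ^ 2 := by
  unfold AV
  simp [W_zero]

/-- the limit of the averages -/
noncomputable def L (f : MW) : ENNReal := limsup (fun k => ENNReal.ofReal (M k f 0)) atTop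

theorem meas_L : Measurable L := Measurable.limsup fun k => (meas_M k 0).ennreal_ofReal

theorem L_eq (f : MW) (a : ℝ) (h : Tendsto (fun k => M k f 0) atTop (𝓝 a)) :
    L f = ENNReal.ofReal a :=
  (ENNReal.tendsto_ofReal h).limsup_eq

theorem FIN : S_FIN := by
  intro μ hμ hst herg m hm hsum
  have hg : ∀ p : ℤ, p = 0 ∨ p = 1 → ∫⁻ f, g p f ∂μ ≠ ⊤ := fun p hp => by
    rw [g_int]
    exact hsum p hp
  have hg0 := ae_lt_top (meas_g 0) (hg 0 (Or.inl rfl))
  have hg1 := ae_lt_top (meas_g 1) (hg 1 (Or.inr rfl))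
  -- the limit is finite and invariant
  have hfin : ∀ᵐ f : MW ∂μ, L f < ⊤ := by
    filter_upwards [hg0, hg1] with f h0 h1
    obtain ⟨a, ha, -⟩ := g_conv 0 f h0
    obtain ⟨b, hb, -⟩ := g_conv 1 f h1
    rw [L_eq f (a + b) (ha.add hb)]
    exact ENNReal.ofReal_lt_top
  have hinv : ∀ x : ℂ, ∀ᵐ f : MW ∂μ, L (shift x f) = L f := by
    intro x
    filter_upwards [hg0, hg1, M_ae μ m hm x] with f h0 h1 h2
    obtain ⟨a, ha, -⟩ := g_conv 0 f h0
    obtain ⟨b, hb, -⟩ := g_conv 1 f h1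
    have h3 : Tendsto (fun k => M k f 0) atTop (𝓝 (a + b)) := ha.add hb
    have h4 : Tendsto (fun k => M k (shift x f) 0) atTop (𝓝 (a + b)) := by
      have := h2.add h3
      rw [zero_add] at this
      refine this.congr fun k => ?_
      unfold M
      rw [AV_shift, AV_shift]
      ring
    rw [L_eq f _ h3, L_eq _ _ h4]
  -- ergodicity
  obtain ⟨c, hc⟩ : ∃ c : ℕ, μ {f | L f ≤ c} ≠ 0 := by
    by_contra hcon
    push Not at hcon
    have h1 : μ (⋃ c : ℕ, {f | L f ≤ c}) = 0 := measure_iUnion_null hcon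
    have h2 : ∀ᵐ f ∂μ, f ∉ ⋃ c : ℕ, {f | L f ≤ c} := measure_eq_zero_iff_ae_notMem.1 h1
    have h3 : ∀ᵐ f : MW ∂μ, False := by
      filter_upwards [h2, hfin] with f h4 h5
      refine h4 (Set.mem_iUnion.2 ?_)
      obtain ⟨n, hn⟩ := ENNReal.exists_nat_gt h5.ne
      exact ⟨n, hn.le⟩
    rw [ae_iff] at h3
    simp at h3
  have hA : MeasurableSet {f | L f ≤ c} := measurableSet_le meas_L measurable_const
  have h1 := herg _ hA fun x => by
    filter_upwards [hinv x] with f hf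
    exact propext ⟨fun h => by
      change L f ≤ c
      rw [← hf]
      exact h, fun h => by
      change L (shift x f) ≤ c
      rw [hf]
      exact h⟩
  have h1' : μ {f | L f ≤ c} = 1 := h1.resolve_left hc
  have h2 : ∀ᵐ f : MW ∂μ, L f ≤ c := by
    have := (prob_compl_eq_zero_iff hA).2 h1'
    exact this
  -- the bound
  have hbd : ∀ᵐ f : MW ∂μ, f 0 ^ 4 ≤ 4 * (g 0 f).toReal + 2 * (c : ℝ) ^ 2 := by
    filter_upwards [hg0, hg1, h2] with f h0 h1 h2
    obtain ⟨a, ha, ha2⟩ := g_conv 0 f h0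
    obtain ⟨b, hb, -⟩ := g_conv 1 f h1
    rw [L_eq f (a + b) (ha.add hb)] at h2
    have ha0 : 0 ≤ a := ge_of_tendsto' ha fun k => AV_nonneg _ _ _ _
    have hb0 : 0 ≤ b := ge_of_tendsto' hb fun k => AV_nonneg _ _ _ _
    have hab : a + b ≤ c := by
      have := (ENNReal.ofReal_le_natCast).1 h2
      exact this
    rw [AV_one] at ha2
    have hac : a ^ 2 ≤ (c : ℝ) ^ 2 := pow_le_pow_left₀ ha0 (by linarith) 2
    have h5 : f 0 ^ 4 ≤ 2 * (f 0 ^ 2 - a) ^ 2 + 2 * a ^ 2 := by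
      nlinarith [sq_nonneg (f 0 ^ 2 - 2 * a)]
    linarith
  have hint : Integrable (fun f : MW => 4 * (g 0 f).toReal + 2 * (c : ℝ) ^ 2) μ :=
    ((integrable_toReal_of_lintegral_ne_top (meas_g 0).aemeasurable
      (hg 0 (Or.inl rfl))).const_mul 4).add (integrable_const _)
  refine hint.mono' ((meas_eval 0).pow_const 4).aestronglyMeasurable ?_
  filter_upwards [hbd] with f hf
  rw [Real.norm_of_nonneg (by positivity)]
  exact hf

end Pool.Agent.N136.BRFIN
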