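import Mathlib
import Pool.Agent.N208.BT.Stm3
import Pool.Agent.N73.BTbase

/-!
# BT/PA: two projections are independent or linked
-/

set_option autoImplicit false

noncomputable section

namespace Pool.Agent.N136.BTPA

open Matrix
open Pool.Agent.N208.BT
open Pool.Agent.N73.BT (hf_add_left hf_smul_left hf_conj hf_add_right hf_smul_right hf_zero_left
  hf_sub_left hf_sub_right R_apply mat_ext R_smul_left R_smul_right R_zero_left R_zero_right
  br br_R br_smul hf_self)

variable {n n' : ℕ}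

/-! ### entrywise conjugation -/

theorem hf_star (x y : V n) : hf (star x) (star y) = star (hf x y) := by
  unfold hf
  simp only [Pi.star_apply, star_sub, star_mul', star_sum]

theorem map_mulVec (Y : M n) (x : V n) : (Y.map star) *ᵥ (star x) = star (Y *ᵥ x) := by
  funext i
  simp only [Matrix.mulVec, dotProduct, Matrix.map_apply, Pi.star_apply, star_sum, star_mul']

theorem map_map (Y : M n) : (Y.map star).map star = Y := by
  ext i j
  simp only [Matrix.map_apply, star_star]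

theorem R_map (a b : V n) : (R a b).map star = R (star a) (star b) := by
  have h : ∀ x : V n, ((R a b).map star) *ᵥ (star x) = R (star a) (star b) *ᵥ (star x) := by
    intro x
    rw [map_mulVec, R_apply, R_apply, star_smul, hf_star]
  apply mat_ext
  intro x
  have := h (star x)
  rwa [star_star] at this

theorem map_mul' {p q r : Type} [Fintype q] (A : Matrix p q ℂ) (B : Matrix q r ℂ) :
    (A * B).map star = A.map star * B.map star := by
  ext i j
  simp only [Matrix.map_apply, Matrix.mul_apply, star_sum, star_mul']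

theorem map_smul' (c : ℂ) (A : M n) : (c • A).map star = star c • A.map star := by
  ext i j
  simp only [Matrix.map_apply, Matrix.smul_apply, smul_eq_mul, star_mul']

theorem map_sub' (A B : M n) : (A - B).map star = A.map star - B.map star := by
  ext i j
  simp only [Matrix.map_apply, Matrix.sub_apply, star_sub]

theorem map_zero' : (0 : M n).map star = 0 := by
  ext i j
  simp only [Matrix.map_apply, Matrix.zero_apply, star_zero]

theorem skew_map {Y : M n} (h : IsSk (Y.map star)) : IsSk Y := by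
  intro x y
  have h1 := h (star x) (star y)
  rw [map_mulVec, map_mulVec, hf_star, hf_star, ← star_add] at h1
  exact star_eq_zero.1 h1

theorem trace_map (Y : M n) : (Y.map star).trace = star Y.trace := by
  simp only [Matrix.trace, Matrix.diag_apply, Matrix.map_apply, star_sum]

theorem brp {𝔟 : Submodule ℝ (M n × M n')} (h : PR 𝔟) {X X' : M n} {Y Y' : M n'}
    (h1 : (X, Y) ∈ 𝔟) (h2 : (X', Y') ∈ 𝔟) : (br X X', br Y Y') ∈ 𝔟 := by
  have h3 := h.br _ h1 _ h2
  rw [Prod.mk_mul_mk, Prod.mk_mul_mk, Prod.mk_sub_mk] at h3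
  exact h3

/-- the conjugation of the second component -/
def cj (n n' : ℕ) : (M n × M n') →ₗ[ℝ] (M n × M n') where
  toFun p := (p.1, p.2.map star)
  map_add' p q := by
    refine Prod.ext rfl ?_
    ext i j
    simp only [Prod.snd_add, Matrix.map_apply, Matrix.add_apply, star_add]
  map_smul' c p := by
    refine Prod.ext rfl ?_
    ext i j
    simp only [Prod.smul_snd, Matrix.map_apply, Matrix.smul_apply, RingHom.id_apply]
    simp

theorem mem_cj {𝔟 : Submodule ℝ (M n × M n')} {p : M n × M n'} :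
    p ∈ 𝔟.comap (cj n n') ↔ (p.1, p.2.map star) ∈ 𝔟 := Iff.rfl

theorem br_map (X Y : M n) : (br X Y).map star = br (X.map star) (Y.map star) := by
  unfold br
  rw [map_sub', map_mul', map_mul']

theorem prcj {𝔟 : Submodule ℝ (M n × M n')} (h : PR 𝔟) : PR (𝔟.comap (cj n n')) where
  br := fun p hp q hq => by
    obtain ⟨p1, p2⟩ := p
    obtain ⟨q1, q2⟩ := q
    rw [mem_cj] at hp hq
    rw [Prod.mk_mul_mk, Prod.mk_mul_mk, Prod.mk_sub_mk, mem_cj]
    have h1 := brp h hp hq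
    rw [← br_map] at h1
    exact h1
  sk1 := fun p hp => h.sk1 (p.1, p.2.map star) (mem_cj.1 hp)
  sk2 := fun p hp => skew_map (h.sk2 (p.1, p.2.map star) (mem_cj.1 hp))
  tr1 := fun p hp => h.tr1 (p.1, p.2.map star) (mem_cj.1 hp)
  tr2 := fun p hp => by
    have h1 : (p.2.map star).trace = 0 := h.tr2 (p.1, p.2.map star) (mem_cj.1 hp)
    rw [trace_map] at h1
    exact star_eq_zero.1 h1
  all1 := fun x hx => by
    obtain ⟨Y, hY⟩ := h.all1 x hx
    refine ⟨Y.map star, ?_⟩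
    rw [mem_cj, map_map]
    exact hY
  all2 := fun y hy => by
    have h1 : hf (star y) (star y) = 0 := by rw [hf_star, hy, star_zero]
    obtain ⟨X, hX⟩ := h.all2 (star y) h1
    refine ⟨-X, ?_⟩
    rw [mem_cj, map_smul', R_map]
    have h2 := 𝔟.neg_mem hX
    rw [Prod.neg_mk] at h2
    have e : star Complex.I • R (star y) (star y) = -(Complex.I • R (star y) (star y)) := by
      rw [Complex.star_def, Complex.conj_I, neg_smul]
    show (-X, star Complex.I • R (star y) (star y)) ∈ 𝔟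
    rw [e]
    exact h2

/-! ### the standard hyperbolic pair -/

theorem pair_ex (m : ℕ) : ∃ u v : V (m + 1), hf u u = 0 ∧ hf v v = 0 ∧ hf u v = 1 := by
  refine ⟨Fin.cons 1 (Fin.cons 1 0), Fin.cons (1 / 2) (Fin.cons (-(1 / 2)) 0), ?_, ?_, ?_⟩
  all_goals
    unfold hf
    rw [Fin.sum_univ_succ]
    simp only [Fin.cons_zero, Fin.cons_succ, Pi.zero_apply, zero_mul, Finset.sum_const_zero,
      add_zero]
    simp
  all_goals norm_num

theorem R_ne {u v : V n} (h : hf u v = 1) : R u u ≠ 0 := by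
  intro h0
  have h1 : R u u *ᵥ v = 0 := by rw [h0, Matrix.zero_mulVec]
  rw [R_apply, hf_conj, h, star_one, one_smul] at h1
  rw [h1, hf_zero_left] at h
  exact zero_ne_one h

theorem iR_ne {u v : V n} (h : hf u v = 1) : Complex.I • R u u ≠ 0 :=
  smul_ne_zero Complex.I_ne_zero (R_ne h)

theorem R_mul (a b c d : V n) : R a b * R c d = hf c b • R a d := by
  apply mat_ext
  intro x
  rw [← Matrix.mulVec_mulVec, R_apply, R_apply, Matrix.smul_mulVec, R_apply, hf_smul_left,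
    smul_smul, mul_comm]

/-- the bracket of two operators `i R(x, x)` -/
theorem br_RR (u v : V n) (s s' : ℂ) :
    br ((s' * Complex.I) • R v v) ((s * Complex.I) • R u u) =
      (s * s') • (hf v u • R u v - hf u v • R v u) := by
  unfold br
  rw [smul_mul_smul_comm, smul_mul_smul_comm, R_mul, R_mul, smul_sub, smul_smul, smul_smul,
    smul_smul, smul_smul]
  have e1 : s' * Complex.I * (s * Complex.I) = -(s * s') := by
    linear_combination s * s' * Complex.I_mul_I
  have e2 : s * Complex.I * (s' * Complex.I) = -(s * s') := by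
    linear_combination s * s' * Complex.I_mul_I
  rw [e1, e2]
  module

theorem mem_inl {𝔟 : Submodule ℝ (M n × M n')} {X : M n} :
    X ∈ 𝔟.comap (LinearMap.inl ℝ (M n) (M n')) ↔ (X, (0 : M n')) ∈ 𝔟 := Iff.rfl

theorem mem_inr {𝔟 : Submodule ℝ (M n × M n')} {Y : M n'} :
    Y ∈ 𝔟.comap (LinearMap.inr ℝ (M n) (M n')) ↔ ((0 : M n), Y) ∈ 𝔟 := Iff.rfl

theorem br_zero (X : M n) : br X 0 = 0 := by
  unfold br
  rw [mul_zero, zero_mul, sub_zero]

/-- the bracket of `H'` with `i R(u, u)` -/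
theorem br_H {u v : V n} (s s' : ℝ) (hu : hf u u = 0)
    (hsk : IsSk (br (((s' : ℂ) * Complex.I) • R v v) (((s : ℂ) * Complex.I) • R u u))) :
    br (br (((s' : ℂ) * Complex.I) • R v v) (((s : ℂ) * Complex.I) • R u u))
      (((s : ℂ) * Complex.I) • R u u) =
      (2 * ((s * s' * ‖hf u v‖ ^ 2 : ℝ) : ℂ)) • (((s : ℂ) * Complex.I) • R u u) := by
  obtain ⟨c, hc⟩ : ∃ c, c = hf u v := ⟨_, rfl⟩
  have hc' : hf v u = star c := by rw [hc]; exact hf_conj u v
  obtain ⟨H, hH⟩ : ∃ H, H = br (((s' : ℂ) * Complex.I) • R v v) (((s : ℂ) * Complex.I) • R u u) :=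
    ⟨_, rfl⟩
  rw [← hH] at hsk
  rw [← hH]
  have hcc : star c * c = ((‖c‖ ^ 2 : ℝ) : ℂ) := by
    rw [Complex.star_def, ← Complex.normSq_eq_conj_mul_self, Complex.normSq_eq_norm_sq]
  have hHu : H *ᵥ u = ((s * s' * ‖c‖ ^ 2 : ℝ) : ℂ) • u := by
    rw [hH, br_RR, hc', ← hc, Matrix.smul_mulVec, Matrix.sub_mulVec, Matrix.smul_mulVec,
      Matrix.smul_mulVec, R_apply, R_apply, hu, zero_smul, smul_zero, sub_zero, ← hc, smul_smul,
      smul_smul, mul_assoc, hcc]
    congr 1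
    push_cast
    ring
  rw [br_smul, br_R hsk, hHu, R_smul_left, R_smul_right, Complex.star_def, Complex.conj_ofReal,
    ← hc, ← two_smul ℂ, smul_smul, smul_smul, smul_smul]
  congr 1
  ring

theorem sgn {s s' x : ℝ} (hs : s = 1 ∨ s = -1) (hs' : s' = 1 ∨ s' = -1) (hx : 0 ≤ x)
    (h : s * s' * x = 1) : s' = s ∧ x = 1 := by
  rcases hs with rfl | rfl <;> rcases hs' with rfl | rfl <;> constructor <;> nlinarith

theorem sk1' {𝔟 : Submodule ℝ (M n × M n')} (h : PR 𝔟) {X : M n} {Y : M n'}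
    (hp : (X, Y) ∈ 𝔟) : IsSk X := h.sk1 (X, Y) hp

theorem sk2' {𝔟 : Submodule ℝ (M n × M n')} (h : PR 𝔟) {X : M n} {Y : M n'}
    (hp : (X, Y) ∈ 𝔟) : IsSk Y := h.sk2 (X, Y) hp

theorem tr1' {𝔟 : Submodule ℝ (M n × M n')} (h : PR 𝔟) {X : M n} {Y : M n'}
    (hp : (X, Y) ∈ 𝔟) : X.trace = 0 := h.tr1 (X, Y) hp

theorem tr2' {𝔟 : Submodule ℝ (M n × M n')} (h : PR 𝔟) {X : M n} {Y : M n'}
    (hp : (X, Y) ∈ 𝔟) : Y.trace = 0 := h.tr2 (X, Y) hp

theorem main_lem {𝔟 : Submodule ℝ (M n × M n')} (h : PR 𝔟) (hP1 : S_P1)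
    (h1 : ∀ X : M n, (X, 0) ∈ 𝔟 → X = 0) (h2 : ∀ Y : M n', (0, Y) ∈ 𝔟 → Y = 0)
    {u v : V n} (huu : hf u u = 0) (hvv : hf v v = 0) (huv : hf u v = 1) :
    ∃ (s : ℝ) (u' v' : V n'), (s = 1 ∨ s = -1) ∧ hf u' u' = 0 ∧ hf v' v' = 0 ∧ hf u' v' = 1 ∧
      (Complex.I • R u u, ((s : ℂ) * Complex.I) • R u' u') ∈ 𝔟 ∧
      (Complex.I • R v v, ((s : ℂ) * Complex.I) • R v' v') ∈ 𝔟 := by
  obtain ⟨Yu, hYu⟩ := h.all1 u huu
  obtain ⟨Yv, hYv⟩ := h.all1 v hvv
  have hvu : hf v u = 1 := by rw [hf_conj, huv, star_one]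
  obtain ⟨s, u₁, hs, hu₁0, hu₁, eu⟩ := hP1 n n' 𝔟 h h1 h2 u v huu hvv huv Yu hYu
  obtain ⟨s', v₁, hs', hv₁0, hv₁, ev⟩ := hP1 n n' 𝔟 h h1 h2 v u hvv huu hvu Yv hYv
  have hYu0 : Yu ≠ 0 := by
    intro h3
    rw [h3] at hYu
    exact iR_ne huv (h1 _ hYu)
  -- the bracket
  have hH := brp h hYv hYu
  have hE := brp h hH hYu
  have hH's := sk2' h hH
  have hHs := sk1' h hH
  have hE1 : br (br (Complex.I • R v v) (Complex.I • R u u)) (Complex.I • R u u) =
      (2 : ℝ) • (Complex.I • R u u) := by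
    have h3 := br_H (u := u) (v := v) 1 1 huu (by
      rw [Complex.ofReal_one, one_mul]
      exact hHs)
    rw [Complex.ofReal_one, one_mul, huv] at h3
    rw [h3, norm_one]
    have e : (2 * (((1 : ℝ) * 1 * 1 ^ 2 : ℝ) : ℂ)) = ((2 : ℝ) : ℂ) := by
      push_cast
      ring
    rw [e, Complex.coe_smul]
  have hE2 : br (br Yv Yu) Yu = (2 : ℝ) • Yu := by
    have h4 := 𝔟.sub_mem hE (𝔟.smul_mem (2 : ℝ) hYu)
    rw [Prod.smul_mk, Prod.mk_sub_mk, hE1, sub_self] at h4
    exact sub_eq_zero.1 (h2 _ h4)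
  have hkey : s * s' * ‖hf u₁ v₁‖ ^ 2 = 1 := by
    rw [eu, ev] at hH's
    have h3 := br_H s s' hu₁ hH's
    rw [← eu, ← ev, hE2] at h3
    have e : (2 * ((s * s' * ‖hf u₁ v₁‖ ^ 2 : ℝ) : ℂ)) =
        ((2 * (s * s' * ‖hf u₁ v₁‖ ^ 2) : ℝ) : ℂ) := by
      push_cast
      ring
    rw [e, Complex.coe_smul] at h3
    have h4 := smul_left_injective ℝ hYu0 h3
    linarith
  obtain ⟨hss, hn⟩ := sgn hs hs' (by positivity) hkey
  obtain ⟨c, hc⟩ : ∃ c, c = hf u₁ v₁ := ⟨_, rfl⟩
  have hcc1 : star c * c = 1 := by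
    rw [Complex.star_def, ← Complex.normSq_eq_conj_mul_self, Complex.normSq_eq_norm_sq, hc, hn,
      Complex.ofReal_one]
  refine ⟨s, u₁, c • v₁, hs, hu₁, ?_, ?_, ?_, ?_⟩
  · rw [hf_smul_left, hf_smul_right, hv₁, mul_zero, mul_zero]
  · rw [hf_smul_right, ← hc, hcc1]
  · rw [← eu]
    exact hYu
  · have e : R (c • v₁) (c • v₁) = R v₁ v₁ := by
      rw [R_smul_left, R_smul_right, smul_smul, mul_comm, hcc1, one_smul]
    rw [e, ← hss, ← ev]
    exact hYv

theorem main (hSU : S_SU) (hPI : S_PI) (hP1 : S_P1) (hP2 : S_P2) : S_PA := by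
  intro n n' 𝔟 h
  by_cases h1 : ∃ X : M n, (X, (0 : M n')) ∈ 𝔟 ∧ X ≠ 0
  · left
    obtain ⟨X₀, hX₀, hX₀0⟩ := h1
    refine hPI n (𝔟.comap (LinearMap.inl ℝ (M n) (M n'))) (fun X hX => ?_) (fun x hx Y hY => ?_)
      ⟨X₀, mem_inl.2 hX₀, hX₀0⟩
    · exact ⟨sk1' h (mem_inl.1 hX), tr1' h (mem_inl.1 hX)⟩
    · obtain ⟨Z, hZ⟩ := h.all1 x hx
      have h3 := brp h hZ (mem_inl.1 hY)
      rw [br_zero] at h3
      exact mem_inl.2 h3
  push Not at h1
  rcases Nat.eq_zero_or_pos n with hn | hn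
  · left
    subst hn
    intro x hx
    have h3 : x = 0 := by
      unfold hf at hx
      rw [Finset.univ_eq_empty, Finset.sum_empty, sub_zero] at hx
      have h4 : x 0 = 0 := by
        rcases mul_eq_zero.1 hx with h5 | h5
        · exact h5
        · exact star_eq_zero.1 h5
      funext i
      have : i = 0 := Fin.ext (by omega)
      rw [this, h4]
      rfl
    rw [h3, R_zero_left, smul_zero]
    exact 𝔟.zero_mem
  obtain ⟨m, rfl⟩ : ∃ m, n = m + 1 := ⟨n - 1, by omega⟩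
  obtain ⟨u, v, huu, hvv, huv⟩ := pair_ex m
  have h2 : ∀ Y : M n', ((0 : M (m + 1)), Y) ∈ 𝔟 → Y = 0 := by
    by_contra hcon
    push Not at hcon
    obtain ⟨Y₀, hY₀, hY₀0⟩ := hcon
    have h3 := hPI n' (𝔟.comap (LinearMap.inr ℝ (M (m + 1)) (M n')))
      (fun X hX => ⟨sk2' h (mem_inr.1 hX), tr2' h (mem_inr.1 hX)⟩) (fun y hy Y hY => by
        obtain ⟨Z, hZ⟩ := h.all2 y hy
        have h3 := brp h hZ (mem_inr.1 hY)
        rw [br_zero] at h3
        exact mem_inr.2 h3) ⟨Y₀, mem_inr.2 hY₀, hY₀0⟩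
    obtain ⟨Yu, hYu⟩ := h.all1 u huu
    have h4 : Yu ∈ 𝔟.comap (LinearMap.inr ℝ (M (m + 1)) (M n')) := by
      refine (Submodule.span_le.2 ?_) (hSU n' Yu (sk2' h hYu) (tr2' h hYu))
      rintro _ ⟨x, hx, rfl⟩
      exact h3 x hx
    have h5 : ((0 : M (m + 1)), Yu) ∈ 𝔟 := mem_inr.1 h4
    have h6 := 𝔟.sub_mem hYu h5
    rw [Prod.mk_sub_mk, sub_zero, sub_self] at h6
    exact iR_ne huv (h1 _ h6)
  obtain ⟨s, u', v', hs, hu', hv', hu'v', hmu, hmv⟩ := main_lem h hP1 h1 h2 huu hvv huv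
  right
  rcases hs with rfl | rfl
  · left
    rw [Complex.ofReal_one, one_mul] at hmu hmv
    exact hP2 (m + 1) n' 𝔟 h h1 h2 u v u' v' huu hvv huv hu' hv' hu'v' hmu hmv
  · right
    have e : ∀ w : V n', (Complex.I • R (star w) (star w)).map star =
        (((-1 : ℝ) : ℂ) * Complex.I) • R w w := by
      intro w
      rw [map_smul', R_map, star_star]
      congr 1
      simp
    obtain ⟨S, hS0, hS⟩ := hP2 (m + 1) n' (𝔟.comap (cj (m + 1) n')) (prcj h)
      (fun X hX => h1 X (by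
        have h3 : (X, (0 : M n').map star) ∈ 𝔟 := mem_cj.1 hX
        rwa [map_zero'] at h3))
      (fun Y hY => by
        have h3 : ((0 : M (m + 1)), Y.map star) ∈ 𝔟 := mem_cj.1 hY
        have h4 := h2 _ h3
        rw [← map_map Y, h4, map_zero'])
      u v (star u') (star v') huu hvv huv (by rw [hf_star, hu', star_zero])
      (by rw [hf_star, hv', star_zero]) (by rw [hf_star, hu'v', star_one])
      (by
        rw [mem_cj, e]
        exact hmu)
      (by
        rw [mem_cj, e]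
        exact hmv)
    refine ⟨S.map star, fun h0 => hS0 ?_, fun p hp => ?_⟩
    · ext i j
      have h3 := congrFun (congrFun h0 i) j
      exact star_eq_zero.1 h3
    · have h3 : (p.1, p.2.map star) ∈ 𝔟.comap (cj (m + 1) n') := by
        rw [mem_cj, map_map]
        exact hp
      have h4 : p.2.map star * S = S * p.1 := hS _ h3
      have h5 := congrArg (fun A => Matrix.map A star) h4
      rw [map_mul', map_mul', map_map] at h5
      exact h5

end Pool.Agent.N136.BTPA
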