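import Pool.Agent.N979.CP.Stm4
import Pool.Agent.N979.CP.Fin

/-!
# Project FB (helper979), task PTWG (helper136): the calibration inequality in the charts
-/

set_option autoImplicit false

open MeasureTheory Metric Set Filter Topology InnerProductGeometry Matrix

namespace Pool.Agent.N136.FBPTWG

open Pool.Agent.H241R3.FV Pool.Agent.N526.CP Pool.Agent.N979.CP Pool.Agent.N979.CP.PTWb

/-- the scaled metric -/
noncomputable def Gs {n : ℕ} (R : ℝ) (G : Matrix (Fin n) (Fin n) ℝ) : Matrix (Fin n) (Fin n) ℝ := (1 / R ^ 2) • G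

theorem Gs_pos {n : ℕ} {R : ℝ} (hR : 0 < R) {G : Matrix (Fin n) (Fin n) ℝ} (hG : G.PosDef) : (Gs R G).PosDef := by
  unfold Gs
  exact hG.smul (by positivity)

theorem Gs_gnorm {n : ℕ} {R : ℝ} (hR : 0 < R) (G : Matrix (Fin n) (Fin n) ℝ) (v : E n) :
    gnorm (Gs R G) v = gnorm G v / R := by
  unfold gnorm Gs
  have h : ∀ q : ℝ, √(1 / R ^ 2 * q) = √q / R := by
    intro q
    rw [Real.sqrt_mul (by positivity), one_div, Real.sqrt_inv, Real.sqrt_sq hR.le]
    ring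
  rw [← h]
  congr 1
  rw [Finset.mul_sum]
  refine Finset.sum_congr rfl fun i _ => ?_
  rw [Finset.mul_sum]
  refine Finset.sum_congr rfl fun j _ => ?_
  rw [Matrix.smul_apply, smul_eq_mul]
  ring

theorem Gs_det {d : ℕ} {R : ℝ} (hR : 0 < R) (G : Matrix (Fin (d + 1)) (Fin (d + 1)) ℝ) :
    √(Gs R G).det = √G.det / R ^ (d + 1) := by
  unfold Gs
  rw [Matrix.det_smul, Fintype.card_fin]
  have h1 : (1 / R ^ 2) ^ (d + 1) = ((R ^ (d + 1))⁻¹) ^ 2 := by
    rw [one_div, inv_pow, inv_pow, ← pow_mul, ← pow_mul]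
    congr 2
    ring
  rw [h1, Real.sqrt_mul (by positivity), Real.sqrt_sq (by positivity)]
  ring

theorem aux : S_COMb → S_INV → S_UDER → S_XDIFG → S_PTWG := by
  intro hCOM hINV hUDER hXDIF d hd M _ _ S s t R g hs hpar hF i
  have hR : 0 < R := hpar.2.2.2.2.1
  filter_upwards [hXDIF d hd M S s t R g hpar hF i] with p hp hpU
  obtain ⟨α, hαm, hα1, hα2, hX⟩ := hp hpU
  obtain ⟨X, hXdef⟩ : ∃ X, X = Xf g ((S.chart i).map p) := ⟨_, rfl⟩
  rw [← hXdef] at hX
  have hXs : ‖X‖ ≤ s := by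
    rw [hXdef]
    exact ((hINV d hd).2.1 s hs.1 hs.2.1 _ (hF.range ((S.chart i).map p))).1
  have hX1 : ‖X‖ < 1 := lt_of_le_of_lt hXs hs.2.1
  have com := hCOM d hd s hs X hXs α hαm (Gs R ((S.chart i).G p)) (Gs_pos hR ((S.chart i).pos_G p hpU)) (by
    filter_upwards [hα2] with θ hθ v
    rw [Gs_gnorm hR]
    exact hθ v)
  rw [Gs_det hR] at com
  have hint : ∫ θ, (fderiv ℝ (Psi g θ ∘ (S.chart i).map) p).det ∂(sg (d + 1)) =
      ∫ θ, (Vm X θ * Lm X α +
        vecMulVec (fun i => (θ : E (d + 1)) i) (fun i => α θ i)).det ∂(sg (d + 1)) := by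
    apply integral_congr_ae
    filter_upwards [hα1] with θ hθ
    have hU := (hUDER d hd X hX1).1 θ
    rw [hXdef] at hU
    have h1 : HasFDerivAt (Uf θ ∘ (Xf g ∘ (S.chart i).map)) ((cl (Vm (Xf g ((S.chart i).map p)) θ)).comp
        (cl (Lm X α))) p := HasFDerivAt.comp p hU hX
    have h2 : HasFDerivAt (fun y => (g θ ∘ (S.chart i).map) y • (θ : E (d + 1)))
        ((innerSL ℝ (α θ)).smulRight (θ : E (d + 1))) p := hθ.smul_const _
    have h3 : HasFDerivAt (Psi g θ ∘ (S.chart i).map) ((cl (Vm (Xf g ((S.chart i).map p)) θ)).comp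
        (cl (Lm X α)) + (innerSL ℝ (α θ)).smulRight (θ : E (d + 1))) p := h1.add h2
    rw [h3.fderiv, ← hXdef, cl_mul, cl_smulRight, cl_add, det_cl]
  obtain ⟨T, hT, hTdet⟩ := (hUDER d hd X hX1).2
  have h4 : HasFDerivAt (Hf ∘ Xf g ∘ (S.chart i).map) (T.comp (cl (Lm X α))) p := by
    rw [hXdef] at hT
    exact HasFDerivAt.comp p hT hX
  rw [hint, h4.fderiv, det_comp, det_cl, hTdet, mul_comm (√(1 - ‖X‖ ^ 2))⁻¹]
  exact com

theorem main (h : S_XDIFG) : S_PTWG := aux Fin.comb Fin.inv Fin.uder h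

end Pool.Agent.N136.FBPTWG
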