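import Mathlib
import Pool.Agent.N964.MX.Defs2

/-!
# MX2/B: primes in short intervals on the logarithmic scale
-/

set_option autoImplicit false

namespace Pool.Agent.N136.MX2B

open Pool.Agent.N964.MX

theorem mem_Pl {l : ℝ} {p : ℕ} : p ∈ Pl l ↔ p ≤ ⌊Real.exp l⌋₊ ∧ p.Prime := by
  unfold Pl
  rw [Finset.mem_filter, Finset.mem_range]
  constructor
  · rintro ⟨h1, h2⟩; exact ⟨by omega, h2⟩
  · rintro ⟨h1, h2⟩; exact ⟨by omega, h2⟩

theorem mem_Pl' {l : ℝ} {p : ℕ} : p ∈ Pl l ↔ Real.log p ≤ l ∧ p.Prime := by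
  rw [mem_Pl]
  constructor
  · rintro ⟨h1, h2⟩
    refine ⟨?_, h2⟩
    have h4 : (0 : ℝ) < p := by exact_mod_cast h2.pos
    rw [Real.log_le_iff_le_exp h4]
    exact (Nat.le_floor_iff (Real.exp_pos _).le).1 h1
  · rintro ⟨h1, h2⟩
    refine ⟨?_, h2⟩
    have h4 : (0 : ℝ) < p := by exact_mod_cast h2.pos
    rw [Real.log_le_iff_le_exp h4] at h1
    exact (Nat.le_floor_iff (Real.exp_pos _).le).2 h1

theorem theta_Pl (l : ℝ) : ∑ p ∈ Pl l, Real.log p ≤ Real.log 4 * Real.exp l := by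
  have h1 := Chebyshev.theta_le_log4_mul_x (x := Real.exp l) (Real.exp_pos l).le
  refine le_trans (le_of_eq ?_) h1
  unfold Chebyshev.theta
  refine Finset.sum_congr ?_ fun _ _ => rfl
  ext p
  rw [mem_Pl, Finset.mem_filter, Finset.mem_Ioc]
  constructor
  · rintro ⟨h1, h2⟩; exact ⟨⟨h2.pos, h1⟩, h2⟩
  · rintro ⟨⟨_, h1⟩, h2⟩; exact ⟨h1, h2⟩

theorem unit (a : ℝ) (ha : 0 < a) :
    ∑ p ∈ (Pl (a + 1)).filter (fun p : ℕ => a < Real.log p), 1 / (p : ℝ) ≤
      Real.exp 1 * Real.log 4 / a := by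
  have h1 : ∀ p ∈ (Pl (a + 1)).filter (fun p : ℕ => a < Real.log p),
      1 / (p : ℝ) ≤ Real.exp (-a) / a * Real.log p := by
    intro p hp
    rw [Finset.mem_filter, mem_Pl'] at hp
    have hp0 : (0 : ℝ) < p := by exact_mod_cast hp.1.2.pos
    have h2 : Real.exp a < p := by
      rw [← Real.lt_log_iff_exp_lt hp0]
      exact hp.2
    have h3 : 1 / (p : ℝ) ≤ Real.exp (-a) := by
      rw [Real.exp_neg, ← one_div]
      exact one_div_le_one_div_of_le (Real.exp_pos a) h2.le
    have h4 : 1 ≤ Real.log p / a := (one_le_div ha).2 hp.2.le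
    calc 1 / (p : ℝ) ≤ Real.exp (-a) * 1 := by rw [mul_one]; exact h3
      _ ≤ Real.exp (-a) * (Real.log p / a) :=
        mul_le_mul_of_nonneg_left h4 (Real.exp_pos _).le
      _ = Real.exp (-a) / a * Real.log p := by ring
  calc ∑ p ∈ (Pl (a + 1)).filter (fun p : ℕ => a < Real.log p), 1 / (p : ℝ)
      ≤ ∑ p ∈ (Pl (a + 1)).filter (fun p : ℕ => a < Real.log p),
          Real.exp (-a) / a * Real.log p := Finset.sum_le_sum h1
    _ ≤ ∑ p ∈ Pl (a + 1), Real.exp (-a) / a * Real.log p := by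
        refine Finset.sum_le_sum_of_subset_of_nonneg (Finset.filter_subset _ _) fun p hp _ => ?_
        exact mul_nonneg (div_nonneg (Real.exp_pos _).le ha.le) (Real.log_natCast_nonneg p)
    _ = Real.exp (-a) / a * ∑ p ∈ Pl (a + 1), Real.log p := by rw [Finset.mul_sum]
    _ ≤ Real.exp (-a) / a * (Real.log 4 * Real.exp (a + 1)) :=
        mul_le_mul_of_nonneg_left (theta_Pl _) (div_nonneg (Real.exp_pos _).le ha.le)
    _ = Real.exp 1 * Real.log 4 / a := by
        rw [Real.exp_add, Real.exp_neg]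
        have := Real.exp_ne_zero a
        field_simp

theorem many (a : ℝ) (ha : 0 < a) (n : ℕ) :
    ∑ p ∈ (Pl (a + n)).filter (fun p : ℕ => a < Real.log p), 1 / (p : ℝ) ≤
      n * (Real.exp 1 * Real.log 4 / a) := by
  induction n with
  | zero =>
    refine le_of_eq ?_
    rw [Nat.cast_zero, zero_mul, add_zero]
    refine Finset.sum_eq_zero fun p hp => ?_
    rw [Finset.mem_filter, mem_Pl'] at hp
    exact absurd hp.2 (not_lt.2 hp.1.1)
  | succ n ih =>
    rw [← Finset.sum_filter_add_sum_filter_not _ (fun p : ℕ => Real.log p ≤ a + n)]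
    have h1 : ∑ p ∈ ((Pl (a + (n + 1 : ℕ))).filter (fun p : ℕ => a < Real.log p)).filter
        (fun p : ℕ => Real.log p ≤ a + n), 1 / (p : ℝ) ≤
        ∑ p ∈ (Pl (a + n)).filter (fun p : ℕ => a < Real.log p), 1 / (p : ℝ) := by
      refine Finset.sum_le_sum_of_subset_of_nonneg (fun p hp => ?_) fun p _ _ => by positivity
      rw [Finset.mem_filter, Finset.mem_filter, mem_Pl'] at hp
      rw [Finset.mem_filter, mem_Pl']
      exact ⟨⟨hp.2, hp.1.1.2⟩, hp.1.2⟩
    have h2 : ∑ p ∈ ((Pl (a + (n + 1 : ℕ))).filter (fun p : ℕ => a < Real.log p)).filter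
        (fun p : ℕ => ¬ Real.log p ≤ a + n), 1 / (p : ℝ) ≤
        ∑ p ∈ (Pl ((a + n) + 1)).filter (fun p : ℕ => a + n < Real.log p), 1 / (p : ℝ) := by
      refine Finset.sum_le_sum_of_subset_of_nonneg (fun p hp => ?_) fun p _ _ => by positivity
      rw [Finset.mem_filter, Finset.mem_filter, mem_Pl'] at hp
      rw [Finset.mem_filter, mem_Pl']
      have h3 := hp.1.1.1
      push_cast at h3
      exact ⟨⟨by linarith, hp.1.1.2⟩, not_le.1 hp.2⟩
    have han : 0 < a + n := by positivity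
    have h3 := unit (a + n) han
    have h4 : Real.exp 1 * Real.log 4 / (a + n) ≤ Real.exp 1 * Real.log 4 / a := by
      refine div_le_div_of_nonneg_left ?_ ha ?_
      · have := Real.log_nonneg (show (1 : ℝ) ≤ 4 by norm_num)
        positivity
      · have : (0 : ℝ) ≤ n := Nat.cast_nonneg n
        linarith
    push_cast
    push_cast at h1 h2
    linarith

theorem loc : S_loc := by
  refine ⟨Real.exp 1 * Real.log 4, ?_, fun a b ha hab => ?_⟩
  · have := Real.log_pos (show (1 : ℝ) < 4 by norm_num)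
    positivity
  · have ha0 : 0 < a := by linarith
    have hba : 0 ≤ b - a := by linarith
    have h1 := many a ha0 (⌊b - a⌋₊ + 1)
    have h2 : b ≤ a + (⌊b - a⌋₊ + 1 : ℕ) := by
      have := Nat.lt_floor_add_one (b - a)
      push_cast
      linarith
    have h3 : ((⌊b - a⌋₊ + 1 : ℕ) : ℝ) ≤ b - a + 1 := by
      have := Nat.floor_le hba
      push_cast
      linarith
    have h4 : ∑ p ∈ (Pl b).filter (fun p : ℕ => a < Real.log p), 1 / (p : ℝ) ≤
        ∑ p ∈ (Pl (a + (⌊b - a⌋₊ + 1 : ℕ))).filter (fun p : ℕ => a < Real.log p), 1 / (p : ℝ) := by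
      refine Finset.sum_le_sum_of_subset_of_nonneg (fun p hp => ?_) fun p _ _ => by positivity
      rw [Finset.mem_filter, mem_Pl'] at hp
      rw [Finset.mem_filter, mem_Pl']
      exact ⟨⟨hp.1.1.trans h2, hp.1.2⟩, hp.2⟩
    refine h4.trans (h1.trans ?_)
    have h5 : 0 ≤ Real.exp 1 * Real.log 4 / a := by
      have := Real.log_nonneg (show (1 : ℝ) ≤ 4 by norm_num)
      positivity
    refine (mul_le_mul_of_nonneg_right h3 h5).trans (le_of_eq ?_)
    ring

end Pool.Agent.N136.MX2B
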