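import Mathlib
import Pool.Agent.N576.MX.Defs

set_option autoImplicit false

/-!
# Few heavy exceptional words (project MX of helper576, task HEAVY; written by helper136)

`heavy_of : PR → RSTART → HEAVY`
-/

namespace Pool.Agent.N136.MXH

open Pool.Agent.H499R2 Pool.Agent.TH880.MK Pool.Agent.N576.MK Pool.Agent.N576.MX

noncomputable section

/-! ### Words along a run -/

lemma rn_zero (g : List Bool) (c : Bool) : rn g c 0 = g := by simp [rn]

lemma rn_succ (g : List Bool) (c : Bool) (m : ℕ) : rn g c (m + 1) = rn g c m ++ [c] := by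
  unfold rn
  rw [List.replicate_succ', List.append_assoc]

lemma rn_snoc (g : List Bool) (c : Bool) (m : ℕ) : rn (g ++ [c]) c m = rn g c (m + 1) := by
  unfold rn
  rw [List.replicate_succ, List.append_assoc]
  rfl

lemma pvs_snoc (g : List Bool) (c : Bool) : pvs (g ++ [c]) c = pvs g c := by
  unfold pvs
  rw [desc_snoc]
  cases c <;> rfl

lemma pvs_rn (g : List Bool) (c : Bool) (m : ℕ) : pvs (rn g c m) c = pvs g c := by
  induction m with
  | zero => rw [rn_zero]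
  | succ m ih => rw [rn_succ, pvs_snoc, ih]

lemma pvs_one (g : List Bool) (c : Bool) : 1 ≤ pvs g c := by
  have h1 := (valid_root.desc g).p1
  have h2 := (valid_root.desc g).q1
  unfold pvs
  cases c
  · exact h2
  · exact h1

lemma pvs_lt (g : List Bool) (c : Bool) : pvs g c + 1 ≤ sz g := by
  have h1 := (valid_root.desc g).p1
  have h2 := (valid_root.desc g).q1
  rw [← sz_pq]
  unfold pvs
  cases c
  · show (desc root g).q + 1 ≤ _
    omega
  · show (desc root g).p + 1 ≤ _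
    omega

lemma sz_snoc (g : List Bool) (c : Bool) : sz (g ++ [c]) = sz g + pvs g c := by
  rw [← sz_pq, ← sz_pq, desc_snoc]
  unfold pvs
  cases c
  · show ((desc root g).p + (desc root g).q) + (desc root g).q = (desc root g).p + (desc root g).q + (desc root g).q
    rfl
  · show (desc root g).p + ((desc root g).p + (desc root g).q) = (desc root g).p + (desc root g).q + (desc root g).p
    omega

lemma sz_rn (g : List Bool) (c : Bool) (m : ℕ) : sz (rn g c m) = sz g + m * pvs g c := by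
  induction m with
  | zero => rw [rn_zero]; simp
  | succ m ih => rw [rn_succ, sz_snoc, ih, pvs_rn]; ring

lemma Tst_sz {g : List Bool} {c : Bool} (h : Tst g c) : sz g ≤ 2 * pvs g c := by
  rcases List.eq_nil_or_concat' g with rfl | ⟨k, b, rfl⟩
  · cases c <;> decide
  · have hb : b ≠ c := fun e => h k (by rw [e])
    have h1 := (valid_root.desc k).p1
    have h2 := (valid_root.desc k).q1
    rw [sz_snoc]
    unfold pvs
    rw [desc_snoc]
    have h3 := sz_pq k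
    cases b <;> cases c
    · exact absurd rfl hb
    · show sz k + (desc root k).q ≤ 2 * ((desc root k).p + (desc root k).q)
      omega
    · show sz k + (desc root k).p ≤ 2 * ((desc root k).p + (desc root k).q)
      omega
    · exact absurd rfl hb

/-- the two sizes after leaving a run -/
lemma pq_off (g : List Bool) (c : Bool) (m : ℕ) : m * pvs g c ≤ (desc root (rn g c m ++ [!c])).p ∧
    m * pvs g c ≤ (desc root (rn g c m ++ [!c])).q := by
  have h1 := sz_rn g c m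
  have h2 := sz_pq (rn g c m)
  have h3 := pvs_rn g c m
  have h4 := pvs_lt g c
  rw [desc_snoc]
  unfold pvs at h3
  cases c
  · -- run of steps `false`: `q` fixed
    show _ ≤ (desc root (rn g false m)).p ∧ _ ≤ (desc root (rn g false m)).p + (desc root (rn g false m)).q
    have h5 : (desc root (rn g false m)).q = pvs g false := by
      unfold pvs; exact h3
    rw [← h2, h5] at h1
    omega
  · show _ ≤ (desc root (rn g true m)).p + (desc root (rn g true m)).q ∧ _ ≤ (desc root (rn g true m)).q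
    have h5 : (desc root (rn g true m)).p = pvs g true := by
      unfold pvs; exact h3
    rw [← h2, h5] at h1
    omega

lemma sz_app (k s : List Bool) {μ : ℕ} (hp : μ ≤ (desc root k).p) (hq : μ ≤ (desc root k).q) : μ * sz s ≤ sz (k ++ s) := by
  have h1 := sz_coord (valid_root.desc k) (k ++ s)
  rw [zz_append] at h1
  obtain ⟨h2, h3⟩ := cu_vec (valid_root.desc k) s
  rw [h2, h3] at h1
  have h4 : sz (k ++ s) = (pt s).1 * (desc root k).p + (pt s).2 * (desc root k).q := by exact_mod_cast h1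
  rw [h4]
  unfold sz
  calc μ * ((pt s).1 + (pt s).2) = (pt s).1 * μ + (pt s).2 * μ := by ring
    _ ≤ _ := Nat.add_le_add (Nat.mul_le_mul_left _ hp) (Nat.mul_le_mul_left _ hq)

/-- the words below a node with large sizes -/
lemma cone_card (k : List Bool) {μ : ℕ} (hμ : 1 ≤ μ) (hp : μ ≤ (desc root k).p) (hq : μ ≤ (desc root k).q) (H : ℕ)
    (Z : Finset (List Bool)) (hZ : ∀ l ∈ Z, k <+: l ∧ sz l ≤ H) : (Z.card : ℝ) ≤ ((H : ℝ) / μ) ^ 2 := by
  classical
  have h1 : Z ⊆ (SW (H / μ)).image (fun s => k ++ s) := by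
    intro l hl
    obtain ⟨⟨s, hs⟩, h2⟩ := hZ l hl
    rw [Finset.mem_image]
    refine ⟨s, ?_, hs⟩
    rw [mem_SW, Nat.le_div_iff_mul_le (by omega)]
    have := sz_app k s hp hq
    rw [hs] at this
    rw [mul_comm]
    omega
  have h2 := (Finset.card_le_card h1).trans Finset.card_image_le
  have h3 := card_SW (H / μ)
  have h4 : Z.card ≤ (H / μ) ^ 2 := by omega
  have h5 : (Z.card : ℝ) ≤ (((H / μ : ℕ)) : ℝ) ^ 2 := by exact_mod_cast h4
  refine h5.trans (pow_le_pow_left₀ (Nat.cast_nonneg _) Nat.cast_div_le 2)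

/-! ### Normal form of the witnesses -/

lemma back (H : ℕ) (l : List Bool) (c : Bool) (g : List Bool) : ∀ m : ℕ, rn g c m <+: l → tau H (pvs g c) < m →
    ∃ g' m', rn g' c m' <+: l ∧ tau H (pvs g' c) < m' ∧ Tst g' c := by
  induction g using List.reverseRecOn with
  | nil =>
    intro m h1 h2
    exact ⟨[], m, h1, h2, fun h e => by simp at e⟩
  | append_singleton g b ih =>
    intro m h1 h2
    by_cases hb : b = c
    · subst hb
      rw [rn_snoc] at h1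
      rw [pvs_snoc] at h2
      exact ih (m + 1) h1 (by omega)
    · refine ⟨g ++ [b], m, h1, h2, fun h e => hb ?_⟩
      have := List.append_inj' e rfl
      simpa using this.2

lemma forw (l : List Bool) (c : Bool) (g : List Bool) (s : List Bool) : ∀ m : ℕ, rn g c m ++ s = l →
    ∃ m', m ≤ m' ∧ (l = rn g c m' ∨ rn g c m' ++ [!c] <+: l) := by
  induction s with
  | nil =>
    intro m h
    exact ⟨m, le_rfl, Or.inl (by rw [← h]; simp)⟩
  | cons b s ih =>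
    intro m h
    by_cases hb : b = c
    · subst hb
      obtain ⟨m', h1, h2⟩ := ih (m + 1) (by rw [rn_succ, ← h]; simp)
      exact ⟨m', by omega, h2⟩
    · refine ⟨m, le_rfl, Or.inr ⟨s, ?_⟩⟩
      have : b = !c := by cases b <;> cases c <;> simp_all
      rw [← h, this]
      simp

lemma witness {H : ℕ} {l : List Bool} (h : ¬ Lt (tau H) l) : ∃ (x : List Bool × Bool) (m : ℕ),
    Tst x.1 x.2 ∧ tau H (pvs x.1 x.2) < m ∧ rn x.1 x.2 m <+: l ∧ (l = rn x.1 x.2 m ∨ rn x.1 x.2 m ++ [!x.2] <+: l) := by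
  unfold Lt at h
  push Not at h
  obtain ⟨g, c, m, h1, h2⟩ := h
  obtain ⟨g', m', k1, k2, k3⟩ := back H l c g m h1 h2
  obtain ⟨s, hs⟩ := k1
  obtain ⟨m'', n1, n2⟩ := forw l c g' s m' hs
  refine ⟨(g', c), m'', k3, lt_of_lt_of_le k2 n1, ?_, n2⟩
  rcases n2 with n2 | n2
  · rw [n2]
  · exact (List.prefix_append _ _).trans n2

/-! ### Counting -/

lemma card_fib {α β : Type*} [DecidableEq β] (Z : Finset α) (f : α → β) {B N : ℝ} (hB0 : 0 ≤ B)
    (hB : ∀ b ∈ Z.image f, ((Z.filter (fun x => f x = b)).card : ℝ) ≤ B) (hN : ((Z.image f).card : ℝ) ≤ N) :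
    (Z.card : ℝ) ≤ N * B := by
  have h1 : (Z.card : ℝ) = ∑ b ∈ Z.image f, ((Z.filter (fun x => f x = b)).card : ℝ) := by
    exact_mod_cast Finset.card_eq_sum_card_image f Z
  rw [h1]
  calc ∑ b ∈ Z.image f, ((Z.filter (fun x => f x = b)).card : ℝ) ≤ ∑ b ∈ Z.image f, B := Finset.sum_le_sum hB
    _ = (Z.image f).card * B := by rw [Finset.sum_const, nsmul_eq_mul]
    _ ≤ N * B := mul_le_mul_of_nonneg_right hN hB0

lemma log2_le {H : ℕ} (hH : 2 ≤ H) {δ : ℝ} (hδ : 0 < δ) (hδ1 : δ ≤ 1) :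
    ((Nat.log 2 H : ℕ) : ℝ) + 1 ≤ (3 / δ) * (H : ℝ) ^ δ := by
  have hH0 : (0 : ℝ) < H := by exact_mod_cast (show 0 < H by omega)
  have hH1 : (1 : ℝ) ≤ H := by exact_mod_cast (show 1 ≤ H by omega)
  have h1 : ((Nat.log 2 H : ℕ) : ℝ) * Real.log 2 ≤ Real.log H := by
    have h4 : ((2 ^ Nat.log 2 H : ℕ) : ℝ) ≤ H := by exact_mod_cast Nat.pow_log_le_self 2 (by omega)
    have h5 := Real.log_le_log (by positivity) h4
    push_cast at h5
    rwa [Real.log_pow] at h5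
  have h2 := Real.log_two_gt_d9
  have h3 : Real.log H ≤ (H : ℝ) ^ δ / δ := Real.log_le_rpow_div hH0.le hδ
  have h4 : (0 : ℝ) ≤ (Nat.log 2 H : ℕ) := Nat.cast_nonneg _
  have h5 : ((Nat.log 2 H : ℕ) : ℝ) ≤ 2 * ((H : ℝ) ^ δ / δ) := by nlinarith
  have h6 : (1 : ℝ) ≤ (H : ℝ) ^ δ := Real.one_le_rpow hH1 hδ.le
  have h7 : (H : ℝ) ^ δ ≤ (H : ℝ) ^ δ / δ := by
    rw [le_div_iff₀ hδ]
    nlinarith
  calc ((Nat.log 2 H : ℕ) : ℝ) + 1 ≤ 2 * ((H : ℝ) ^ δ / δ) + (H : ℝ) ^ δ / δ := by linarith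
    _ = (3 / δ) * (H : ℝ) ^ δ := by ring

/-- the number of starts of runs -/
lemma num_starts (h2 : RSTART) {ε : ℝ} (hε : 0 < ε) (hε1 : ε ≤ 1) : ∃ C : ℝ, 0 < C ∧
    ∀ (H : ℕ) (α : ℝ) (G : Finset (List Bool × Bool)), 2 ≤ H →
    (∀ x ∈ G, Tst x.1 x.2 ∧ (pvs x.1 x.2 : ℝ) ≤ (H : ℝ) ^ α ∧ ∃ l, x.1 ++ [x.2] <+: l ∧ Exc H l) →
    (G.card : ℝ) ≤ C * (H : ℝ) ^ (α + 2 * ε) := by
  classical
  obtain ⟨C, hC, hst⟩ := h2 ε hε
  refine ⟨9 * C / ε, by positivity, ?_⟩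
  intro H α G hH hG
  have hH0 : (0 : ℝ) < H := by exact_mod_cast (show 0 < H by omega)
  have key := card_fib G (fun x => Nat.log 2 (sz (x.1 ++ [x.2]) - 1))
    (B := C * (3 * (H : ℝ) ^ α) * (H : ℝ) ^ ε) (N := (3 / ε) * (H : ℝ) ^ ε) (by positivity) ?_ ?_
  · refine key.trans (le_of_eq ?_)
    rw [Real.rpow_add hH0, two_mul, Real.rpow_add hH0]
    ring
  · intro e he
    obtain ⟨y, hy, hye⟩ := Finset.mem_image.mp he
    obtain ⟨t1, t2, -⟩ := hG y hy
    have s1 := Tst_sz t1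
    have s2 := sz_snoc y.1 y.2
    have s3 := pvs_lt y.1 y.2
    have s4 := pvs_one y.1 y.2
    have hR : 2 ^ e ≤ 3 * pvs y.1 y.2 := by
      have : 2 ^ (Nat.log 2 (sz (y.1 ++ [y.2]) - 1)) ≤ sz (y.1 ++ [y.2]) - 1 := Nat.pow_log_le_self 2 (by omega)
      rw [hye] at this
      omega
    have hRr : ((2 ^ e : ℕ) : ℝ) ≤ 3 * (H : ℝ) ^ α := by
      have : ((2 ^ e : ℕ) : ℝ) ≤ 3 * (pvs y.1 y.2 : ℝ) := by exact_mod_cast hR
      linarith
    have h := hst H (2 ^ e) (G.filter (fun x => Nat.log 2 (sz (x.1 ++ [x.2]) - 1) = e)) hH Nat.one_le_two_pow (by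
      intro x hx
      rw [Finset.mem_filter] at hx
      obtain ⟨hx1, hx2⟩ := hx
      obtain ⟨u1, -, u3⟩ := hG x hx1
      have v2 := sz_snoc x.1 x.2
      have v3 := pvs_lt x.1 x.2
      have v4 := pvs_one x.1 x.2
      have w1 : 2 ^ (Nat.log 2 (sz (x.1 ++ [x.2]) - 1)) ≤ sz (x.1 ++ [x.2]) - 1 := Nat.pow_log_le_self 2 (by omega)
      have w2 : sz (x.1 ++ [x.2]) - 1 < 2 ^ (Nat.log 2 (sz (x.1 ++ [x.2]) - 1) + 1) :=
        Nat.lt_pow_succ_log_self (by norm_num) _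
      rw [hx2] at w1 w2
      rw [pow_succ] at w2
      exact ⟨u1, by omega, by omega, u3⟩)
    refine h.trans ?_
    apply mul_le_mul_of_nonneg_right _ (Real.rpow_nonneg hH0.le _)
    exact mul_le_mul_of_nonneg_left hRr hC.le
  · have h1 : G.image (fun x => Nat.log 2 (sz (x.1 ++ [x.2]) - 1)) ⊆ Finset.range (Nat.log 2 H + 1) := by
      intro t ht
      obtain ⟨y, hy, rfl⟩ := Finset.mem_image.mp ht
      obtain ⟨-, -, l, p1, p2⟩ := hG y hy
      have q1 := sz_prefix p1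
      have q2 := p2.1
      rw [Finset.mem_range]
      have := Nat.log_mono_right (b := 2) (show sz (y.1 ++ [y.2]) - 1 ≤ H by omega)
      omega
    have h2 := Finset.card_le_card h1
    rw [Finset.card_range] at h2
    have h3 : ((G.image (fun x => Nat.log 2 (sz (x.1 ++ [x.2]) - 1))).card : ℝ) ≤ ((Nat.log 2 H : ℕ) : ℝ) + 1 := by
      exact_mod_cast h2
    exact h3.trans (log2_le hH hε hε1)

/-- the number of positions on a run -/
lemma num_pos (h1 : PR) {ε : ℝ} (hε : 0 < ε) (hε1 : ε ≤ 1) : ∃ C : ℝ, 0 < C ∧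
    ∀ (H : ℕ) (β : ℝ) (g : List Bool) (c : Bool) (S : Finset ℕ), 2 ≤ H →
    (∀ m ∈ S, (H : ℝ) ^ β ≤ (m : ℝ) * pvs g c ∧ ∃ l, rn g c m ++ [!c] <+: l ∧ Exc H l) →
    (S.card : ℝ) ≤ C * (H : ℝ) ^ (5 * (1 - β) + 2 * ε) := by
  classical
  obtain ⟨C, hC, hpr⟩ := h1 ε hε
  refine ⟨96 * C / ε, by positivity, ?_⟩
  intro H β g c S hH hS
  have hH0 : (0 : ℝ) < H := by exact_mod_cast (show 0 < H by omega)
  have hr1 := pvs_one g c
  have hm1 : ∀ m ∈ S, 1 ≤ m := by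
    intro m hm
    have h := (hS m hm).1
    have h0 := Real.rpow_pos_of_pos hH0 β
    rcases Nat.eq_zero_or_pos m with h3 | h3
    · rw [h3] at h
      norm_num at h
      linarith
    · exact h3
  have key := card_fib S (fun m => Nat.log 2 m)
    (B := C * (H : ℝ) ^ ε * (32 * (H : ℝ) ^ (5 * (1 - β)))) (N := (3 / ε) * (H : ℝ) ^ ε) (by positivity) ?_ ?_
  · refine key.trans (le_of_eq ?_)
    rw [Real.rpow_add hH0, two_mul, Real.rpow_add hH0]
    ring
  · intro e he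
    obtain ⟨m0, hm0, hme⟩ := Finset.mem_image.mp he
    have hme' : Nat.log 2 m0 = e := hme
    have k1 := hm1 m0 hm0
    have k2 : m0 < 2 ^ (e + 1) := by
      rw [← hme']; exact Nat.lt_pow_succ_log_self (by norm_num) _
    have h := hpr H g c (2 ^ e) (S.filter (fun m => Nat.log 2 m = e)) hH Nat.one_le_two_pow (by
      intro m hm
      rw [Finset.mem_filter] at hm
      obtain ⟨u1, u2⟩ := hm
      have w1 : 2 ^ (Nat.log 2 m) ≤ m := Nat.pow_log_le_self 2 (by have := hm1 m u1; omega)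
      have w2 : m < 2 ^ (Nat.log 2 m + 1) := Nat.lt_pow_succ_log_self (by norm_num) _
      rw [u2] at w1 w2
      rw [pow_succ] at w2
      exact ⟨w1, by omega, (hS m u1).2⟩)
    refine h.trans ?_
    apply mul_le_mul_of_nonneg_left _ (by positivity)
    have z1 : (H : ℝ) ^ β ≤ 2 * (sz (rn g c (2 ^ e)) : ℝ) := by
      have a1 := (hS m0 hm0).1
      have a2 : m0 * pvs g c ≤ 2 * sz (rn g c (2 ^ e)) := by
        rw [sz_rn]
        rw [pow_succ] at k2
        have : m0 * pvs g c ≤ (2 ^ e * 2) * pvs g c := Nat.mul_le_mul_right _ (by omega)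
        nlinarith
      have a3 : (m0 : ℝ) * pvs g c ≤ 2 * (sz (rn g c (2 ^ e)) : ℝ) := by exact_mod_cast a2
      linarith
    have z2 : (0 : ℝ) < (H : ℝ) ^ β := Real.rpow_pos_of_pos hH0 β
    have z3 : (0 : ℝ) < (sz (rn g c (2 ^ e)) : ℝ) := by linarith
    have z4 : (H : ℝ) / sz (rn g c (2 ^ e)) ≤ 2 * (H : ℝ) ^ (1 - β) := by
      rw [div_le_iff₀ z3, Real.rpow_sub hH0, Real.rpow_one]
      have : 2 * ((H : ℝ) / (H : ℝ) ^ β) * (sz (rn g c (2 ^ e)) : ℝ) = (H : ℝ) * ((2 * (sz (rn g c (2 ^ e)) : ℝ)) / (H : ℝ) ^ β) := by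
        ring
      rw [this]
      have h1 : 1 ≤ (2 * (sz (rn g c (2 ^ e)) : ℝ)) / (H : ℝ) ^ β := by
        rw [le_div_iff₀ z2]; linarith
      nlinarith
    calc ((H : ℝ) / sz (rn g c (2 ^ e))) ^ 5 ≤ (2 * (H : ℝ) ^ (1 - β)) ^ 5 := pow_le_pow_left₀ (by positivity) z4 5
      _ = 32 * ((H : ℝ) ^ (1 - β)) ^ 5 := by ring
      _ = 32 * (H : ℝ) ^ (5 * (1 - β)) := by
          rw [← Real.rpow_mul_natCast hH0.le]
          norm_num
          ring_nf
  · have h1 : S.image (fun m => Nat.log 2 m) ⊆ Finset.range (Nat.log 2 H + 1) := by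
      intro t ht
      obtain ⟨m, hm, rfl⟩ := Finset.mem_image.mp ht
      obtain ⟨-, l, p1, p2⟩ := hS m hm
      have q1 := sz_prefix p1
      have q2 := p2.1
      have q3 := sz_prefix (List.prefix_append (rn g c m) [!c])
      have q4 := sz_rn g c m
      have q5 : m ≤ m * pvs g c := Nat.le_mul_of_pos_right _ (by omega)
      rw [Finset.mem_range]
      have := Nat.log_mono_right (b := 2) (show m ≤ H by omega)
      omega
    have h2 := Finset.card_le_card h1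
    rw [Finset.card_range] at h2
    have h3 : ((S.image (fun m => Nat.log 2 m)).card : ℝ) ≤ ((Nat.log 2 H : ℕ) : ℝ) + 1 := by
      exact_mod_cast h2
    exact h3.trans (log2_le hH hε hε1)

/-- the words which leave the run -/
lemma type2 (h1 : PR) (h2 : RSTART) {ε : ℝ} (hε : 0 < ε) (hε1 : ε ≤ 1) : ∃ C : ℝ, 0 < C ∧
    ∀ (H : ℕ) (α β : ℝ) (Z : Finset (List Bool)) (G : List Bool → List Bool × Bool) (m : List Bool → ℕ), 2 ≤ H →
    (∀ l ∈ Z, Exc H l ∧ Tst (G l).1 (G l).2 ∧ (pvs (G l).1 (G l).2 : ℝ) ≤ (H : ℝ) ^ α ∧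
      (H : ℝ) ^ β ≤ (m l : ℝ) * pvs (G l).1 (G l).2 ∧ rn (G l).1 (G l).2 (m l) ++ [!(G l).2] <+: l) →
    (Z.card : ℝ) ≤ C * (H : ℝ) ^ (α + 7 * (1 - β) + 4 * ε) := by
  classical
  obtain ⟨C1, hC1, hst⟩ := num_starts h2 hε hε1
  obtain ⟨C2, hC2, hpo⟩ := num_pos h1 hε hε1
  refine ⟨C1 * C2, by positivity, ?_⟩
  intro H α β Z G m hH hZ
  have hH0 : (0 : ℝ) < H := by exact_mod_cast (show 0 < H by omega)
  have hz2 : (0 : ℝ) < (H : ℝ) ^ β := Real.rpow_pos_of_pos hH0 β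
  have key := card_fib Z G (B := C2 * (H : ℝ) ^ (5 * (1 - β) + 2 * ε) * ((H : ℝ) ^ (1 - β)) ^ 2)
    (N := C1 * (H : ℝ) ^ (α + 2 * ε)) (by positivity) ?_ ?_
  · refine key.trans (le_of_eq ?_)
    rw [← Real.rpow_mul_natCast hH0.le]
    have e : (H : ℝ) ^ (α + 7 * (1 - β) + 4 * ε) = (H : ℝ) ^ (α + 2 * ε) * ((H : ℝ) ^ (5 * (1 - β) + 2 * ε) *
        (H : ℝ) ^ ((1 - β) * ((2 : ℕ) : ℝ))) := by
      rw [← Real.rpow_add hH0, ← Real.rpow_add hH0]
      congr 1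
      push_cast
      ring
    rw [e]
    ring
  · intro x hx
    set V := Z.filter (fun l => G l = x) with hV
    have hVm : ∀ l ∈ V, l ∈ Z ∧ G l = x := fun l hl => Finset.mem_filter.mp hl
    have hV2 : ∀ l ∈ V, Exc H l ∧ (H : ℝ) ^ β ≤ (m l : ℝ) * pvs x.1 x.2 ∧ rn x.1 x.2 (m l) ++ [!x.2] <+: l := by
      intro l hl
      obtain ⟨k1, k2⟩ := hVm l hl
      obtain ⟨t1, t2, t3, t4, t5⟩ := hZ l k1
      rw [k2] at t4 t5
      exact ⟨t1, t4, t5⟩
    apply card_fib V m (by positivity)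
    · intro t ht
      obtain ⟨l0, hl0, hlt⟩ := Finset.mem_image.mp ht
      obtain ⟨-, b2, -⟩ := hV2 l0 hl0
      rw [hlt] at b2
      have hpos : 1 ≤ t * pvs x.1 x.2 := by
        by_contra hcon
        have : t * pvs x.1 x.2 = 0 := by omega
        have h3 : (t : ℝ) * pvs x.1 x.2 = 0 := by exact_mod_cast this
        linarith
      obtain ⟨o1, o2⟩ := pq_off x.1 x.2 t
      have hc := cone_card (rn x.1 x.2 t ++ [!x.2]) hpos o1 o2 H (V.filter (fun l => m l = t)) (by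
        intro l hl
        rw [Finset.mem_filter] at hl
        obtain ⟨a1, a2, a3⟩ := hV2 l hl.1
        rw [hl.2] at a3
        exact ⟨a3, a1.1⟩)
      refine hc.trans (pow_le_pow_left₀ (by positivity) ?_ 2)
      rw [Real.rpow_sub hH0, Real.rpow_one]
      push_cast
      exact div_le_div_of_nonneg_left hH0.le hz2 b2
    · apply hpo H β x.1 x.2 (V.image m) hH
      intro t ht
      obtain ⟨l0, hl0, hlt⟩ := Finset.mem_image.mp ht
      obtain ⟨b1, b2, b3⟩ := hV2 l0 hl0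
      rw [hlt] at b2 b3
      exact ⟨b2, l0, b3, b1⟩
  · apply hst H α (Z.image G) hH
    intro x hx
    obtain ⟨l, hl, rfl⟩ := Finset.mem_image.mp hx
    obtain ⟨t1, t2, t3, t4, t5⟩ := hZ l hl
    refine ⟨t2, t3, l, ?_, t1⟩
    have hm : 1 ≤ m l := by
      rcases Nat.eq_zero_or_pos (m l) with h3 | h3
      · rw [h3] at t4
        norm_num at t4
        linarith
      · exact h3
    have e1 : (G l).1 ++ [(G l).2] <+: rn (G l).1 (G l).2 (m l) := by
      refine ⟨List.replicate (m l - 1) (G l).2, ?_⟩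
      unfold rn
      rw [List.append_assoc]
      congr 1
      obtain ⟨n, hn⟩ : ∃ n, m l = n + 1 := ⟨m l - 1, by omega⟩
      rw [hn, List.replicate_succ]
      simp
    exact (e1.trans (List.prefix_append _ _)).trans t5

/-- the words on the run -/
lemma type1 (h2 : RSTART) {ε : ℝ} (hε : 0 < ε) (hε1 : ε ≤ 1) : ∃ C : ℝ, 0 < C ∧
    ∀ (H : ℕ) (α : ℝ) (Z : Finset (List Bool)) (G : List Bool → List Bool × Bool) (m : List Bool → ℕ), 2 ≤ H →
    (∀ l ∈ Z, Exc H l ∧ Tst (G l).1 (G l).2 ∧ (pvs (G l).1 (G l).2 : ℝ) ≤ (H : ℝ) ^ α ∧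
      1 ≤ m l ∧ l = rn (G l).1 (G l).2 (m l)) →
    (Z.card : ℝ) ≤ C * (H : ℝ) ^ (α + 3 * ε) := by
  classical
  obtain ⟨C1, hC1, hst⟩ := num_starts h2 hε hε1
  obtain ⟨C2, hC2, hcb⟩ := chainBound
  refine ⟨C1 * (C2 * (16 / ε) ^ 4), by positivity, ?_⟩
  intro H α Z G m hH hZ
  have hH0 : (0 : ℝ) < H := by exact_mod_cast (show 0 < H by omega)
  have hH1 : (1 : ℝ) ≤ H := by exact_mod_cast (show 1 ≤ H by omega)
  have hlog : 1 + Real.log (2 * H) ≤ (16 / ε) * (H : ℝ) ^ (ε / 4) := by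
    have a1 : Real.log (2 * H) = Real.log 2 + Real.log H := Real.log_mul (by norm_num) hH0.ne'
    have a2 : Real.log H ≤ (H : ℝ) ^ (ε / 4) / (ε / 4) := Real.log_le_rpow_div hH0.le (by positivity)
    have a3 : (1 : ℝ) ≤ (H : ℝ) ^ (ε / 4) := Real.one_le_rpow hH1 (by positivity)
    have a4 := Real.log_two_lt_d9
    have a5 : (H : ℝ) ^ (ε / 4) / (ε / 4) = (4 / ε) * (H : ℝ) ^ (ε / 4) := by
      field_simp
    have a6 : (1 : ℝ) ≤ 1 / ε := by
      rw [le_div_iff₀ hε]; linarith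
    have a7 : (2 : ℝ) ≤ (12 / ε) * (H : ℝ) ^ (ε / 4) := by
      have : (12 : ℝ) / ε = 12 * (1 / ε) := by ring
      rw [this]
      nlinarith
    have a8 : (16 : ℝ) / ε * (H : ℝ) ^ (ε / 4) = (4 / ε) * (H : ℝ) ^ (ε / 4) + (12 / ε) * (H : ℝ) ^ (ε / 4) := by
      ring
    rw [a8, a1]
    linarith
  have hlog0 : 0 ≤ 1 + Real.log (2 * H) := by
    have := Real.log_nonneg (show (1 : ℝ) ≤ 2 * H by linarith)
    linarith
  have key := card_fib Z G (B := C2 * ((16 / ε) * (H : ℝ) ^ (ε / 4)) ^ 4)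
    (N := C1 * (H : ℝ) ^ (α + 2 * ε)) (by positivity) ?_ ?_
  · refine key.trans (le_of_eq ?_)
    rw [mul_pow, ← Real.rpow_mul_natCast hH0.le]
    have e : (H : ℝ) ^ (α + 3 * ε) = (H : ℝ) ^ (α + 2 * ε) * (H : ℝ) ^ (ε / 4 * ((4 : ℕ) : ℝ)) := by
      rw [← Real.rpow_add hH0]
      congr 1
      push_cast
      ring
    rw [e]
    ring
  · intro x hx
    have hrb := run_bound hcb (show 1 ≤ H by omega) x.1 x.2 (Z.filter (fun l => G l = x)) (by
      intro l hl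
      rw [Finset.mem_filter] at hl
      obtain ⟨t1, t2, t3, t4, t5⟩ := hZ l hl.1
      obtain ⟨u1, l', -, u2, u3⟩ := t1
      rw [hl.2] at t5
      exact ⟨⟨l', u2, u3⟩, u1, m l, t5⟩)
    refine hrb.trans (mul_le_mul_of_nonneg_left (pow_le_pow_left₀ hlog0 hlog 4) hC2.le)
  · apply hst H α (Z.image G) hH
    intro x hx
    obtain ⟨l, hl, rfl⟩ := Finset.mem_image.mp hx
    obtain ⟨t1, t2, t3, t4, t5⟩ := hZ l hl
    refine ⟨t2, t3, l, ?_, t1⟩
    have e1 : (G l).1 ++ [(G l).2] <+: rn (G l).1 (G l).2 (m l) := by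
      refine ⟨List.replicate (m l - 1) (G l).2, ?_⟩
      unfold rn
      rw [List.append_assoc]
      congr 1
      obtain ⟨n, hn⟩ : ∃ n, m l = n + 1 := ⟨m l - 1, by omega⟩
      rw [hn, List.replicate_succ]
      simp
    rw [← t5] at e1
    exact e1

/-- the three cases for a heavy word -/
lemma cases3 {H r m : ℕ} (hH : 2 ≤ H) (hr : 1 ≤ r) (h : tau H r < m) (hm : m * r < H) :
    ((r : ℝ) ≤ (H : ℝ) ^ (8 / 100 : ℝ) ∧ (H : ℝ) ^ (91 / 100 : ℝ) ≤ (m : ℝ) * r) ∨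
    ((r : ℝ) ≤ (H : ℝ) ^ (92 / 100 : ℝ) ∧ (H : ℝ) ^ (99 / 100 : ℝ) ≤ (m : ℝ) * r) := by
  have hH0 : (0 : ℝ) < H := by exact_mod_cast (show 0 < H by omega)
  have hr0 : (0 : ℝ) < r := by exact_mod_cast (show 0 < r by omega)
  unfold tau at h
  split_ifs at h with h1 h2
  · left
    refine ⟨h1, ?_⟩
    have := Nat.lt_of_floor_lt h
    rw [div_lt_iff₀ hr0] at this
    exact this.le
  · right
    refine ⟨h2, ?_⟩
    have := Nat.lt_of_floor_lt h
    rw [div_lt_iff₀ hr0] at this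
    exact this.le
  · exfalso
    push Not at h1 h2
    have h3 := Nat.lt_of_floor_lt h
    have h4 : (m : ℝ) * r < H := by exact_mod_cast hm
    have h5 : (H : ℝ) ^ (8 / 100 : ℝ) * (H : ℝ) ^ (92 / 100 : ℝ) = H := by
      rw [← Real.rpow_add hH0]
      norm_num
    have h6 : (0 : ℝ) < (H : ℝ) ^ (8 / 100 : ℝ) := Real.rpow_pos_of_pos hH0 _
    have h7 : (0 : ℝ) < (H : ℝ) ^ (92 / 100 : ℝ) := Real.rpow_pos_of_pos hH0 _
    have h8 : (H : ℝ) ^ (8 / 100 : ℝ) * (H : ℝ) ^ (92 / 100 : ℝ) < (m : ℝ) * r :=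
      mul_lt_mul'' h3 h2 h6.le h7.le
    linarith

/-- **There are few heavy exceptional words.** -/
theorem heavy_of (h1 : PR) (h2 : RSTART) : HEAVY := by
  classical
  have hε : (0 : ℝ) < 1 / 1000 := by norm_num
  have hε1 : (1 / 1000 : ℝ) ≤ 1 := by norm_num
  obtain ⟨C1, hC1, ht1⟩ := type1 h2 hε hε1
  obtain ⟨C2, hC2, ht2⟩ := type2 h1 h2 hε hε1
  refine ⟨C1 + 2 * C2, by positivity, ?_⟩
  intro H Z hH hZ
  have hH0 : (0 : ℝ) < H := by exact_mod_cast (show 0 < H by omega)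
  have hH1 : (1 : ℝ) ≤ H := by exact_mod_cast hH
  rcases Nat.lt_or_ge 1 H with hH2 | hH2
  swap
  · have : Z = ∅ := by
      rw [Finset.eq_empty_iff_forall_notMem]
      intro l hl
      have a1 := (hZ l hl).1.1
      have a2 := pt_pos l
      unfold sz at a1
      omega
    rw [this]
    simp only [Finset.card_empty, Nat.cast_zero]
    positivity
  have hH2' : 2 ≤ H := hH2
  have hw : ∀ l : List Bool, ∃ (x : List Bool × Bool) (m : ℕ), ¬ Lt (tau H) l →
      Tst x.1 x.2 ∧ tau H (pvs x.1 x.2) < m ∧ rn x.1 x.2 m <+: l ∧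
        (l = rn x.1 x.2 m ∨ rn x.1 x.2 m ++ [!x.2] <+: l) := by
    intro l
    by_cases h : Lt (tau H) l
    · exact ⟨([], true), 0, fun h' => absurd h h'⟩
    · obtain ⟨x, m, hx⟩ := witness h
      exact ⟨x, m, fun _ => hx⟩
  choose G m hGm using hw
  have hmr : ∀ l ∈ Z, m l * pvs (G l).1 (G l).2 < H := by
    intro l hl
    obtain ⟨k1, k2, k3, k4⟩ := hGm l (hZ l hl).2
    have a1 := sz_prefix k3
    have a2 := (hZ l hl).1.1
    have a3 := sz_rn (G l).1 (G l).2 (m l)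
    have a4 := pvs_lt (G l).1 (G l).2
    omega
  have hc3 : ∀ l ∈ Z, _ := fun l hl => cases3 hH2' (pvs_one (G l).1 (G l).2) (hGm l (hZ l hl).2).2.1 (hmr l hl)
  set Z1 := Z.filter (fun l => l = rn (G l).1 (G l).2 (m l)) with hZ1
  set Z2 := Z.filter (fun l => rn (G l).1 (G l).2 (m l) ++ [!(G l).2] <+: l ∧
    ((pvs (G l).1 (G l).2 : ℝ) ≤ (H : ℝ) ^ (8 / 100 : ℝ) ∧
      (H : ℝ) ^ (91 / 100 : ℝ) ≤ (m l : ℝ) * pvs (G l).1 (G l).2)) with hZ2
  set Z3 := Z.filter (fun l => rn (G l).1 (G l).2 (m l) ++ [!(G l).2] <+: l ∧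
    ((pvs (G l).1 (G l).2 : ℝ) ≤ (H : ℝ) ^ (92 / 100 : ℝ) ∧
      (H : ℝ) ^ (99 / 100 : ℝ) ≤ (m l : ℝ) * pvs (G l).1 (G l).2)) with hZ3
  have hsub : Z ⊆ Z1 ∪ (Z2 ∪ Z3) := by
    intro l hl
    rw [Finset.mem_union, Finset.mem_union, hZ1, hZ2, hZ3, Finset.mem_filter, Finset.mem_filter, Finset.mem_filter]
    obtain ⟨k1, k2, k3, k4⟩ := hGm l (hZ l hl).2
    rcases k4 with k4 | k4
    · exact Or.inl ⟨hl, k4⟩
    · rcases hc3 l hl with k5 | k5
      · exact Or.inr (Or.inl ⟨hl, k4, k5⟩)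
      · exact Or.inr (Or.inr ⟨hl, k4, k5⟩)
  have hcard : (Z.card : ℝ) ≤ Z1.card + (Z2.card + Z3.card) := by
    exact_mod_cast (Finset.card_le_card hsub).trans ((Finset.card_union_le _ _).trans
      (Nat.add_le_add_left (Finset.card_union_le _ _) _))
  have b1 := ht1 H (92 / 100) Z1 G m hH2' (by
    intro l hl
    rw [hZ1, Finset.mem_filter] at hl
    obtain ⟨k1, k2, k3, k4⟩ := hGm l (hZ l hl.1).2
    refine ⟨(hZ l hl.1).1, k1, ?_, by omega, hl.2⟩
    rcases hc3 l hl.1 with k5 | k5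
    · exact k5.1.trans (Real.rpow_le_rpow_of_exponent_le hH1 (by norm_num))
    · exact k5.1)
  have b2 := ht2 H (8 / 100) (91 / 100) Z2 G m hH2' (by
    intro l hl
    rw [hZ2, Finset.mem_filter] at hl
    obtain ⟨k1, k2, k3, k4⟩ := hGm l (hZ l hl.1).2
    exact ⟨(hZ l hl.1).1, k1, hl.2.2.1, hl.2.2.2, hl.2.1⟩)
  have b3 := ht2 H (92 / 100) (99 / 100) Z3 G m hH2' (by
    intro l hl
    rw [hZ3, Finset.mem_filter] at hl
    obtain ⟨k1, k2, k3, k4⟩ := hGm l (hZ l hl.1).2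
    exact ⟨(hZ l hl.1).1, k1, hl.2.2.1, hl.2.2.2, hl.2.1⟩)
  have e1 : (H : ℝ) ^ (92 / 100 + 3 * (1 / 1000) : ℝ) ≤ (H : ℝ) ^ (199 / 200 : ℝ) :=
    Real.rpow_le_rpow_of_exponent_le hH1 (by norm_num)
  have e2 : (H : ℝ) ^ (8 / 100 + 7 * (1 - 91 / 100) + 4 * (1 / 1000) : ℝ) ≤ (H : ℝ) ^ (199 / 200 : ℝ) :=
    Real.rpow_le_rpow_of_exponent_le hH1 (by norm_num)
  have e3 : (H : ℝ) ^ (92 / 100 + 7 * (1 - 99 / 100) + 4 * (1 / 1000) : ℝ) ≤ (H : ℝ) ^ (199 / 200 : ℝ) :=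
    Real.rpow_le_rpow_of_exponent_le hH1 (by norm_num)
  have f1 := b1.trans (mul_le_mul_of_nonneg_left e1 hC1.le)
  have f2 := b2.trans (mul_le_mul_of_nonneg_left e2 hC2.le)
  have f3 := b3.trans (mul_le_mul_of_nonneg_left e3 hC2.le)
  calc (Z.card : ℝ) ≤ Z1.card + (Z2.card + Z3.card) := hcard
    _ ≤ C1 * (H : ℝ) ^ (199 / 200 : ℝ) + (C2 * (H : ℝ) ^ (199 / 200 : ℝ) + C2 * (H : ℝ) ^ (199 / 200 : ℝ)) := by
        linarith
    _ = (C1 + 2 * C2) * (H : ℝ) ^ (199 / 200 : ℝ) := by ring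

end

end Pool.Agent.N136.MXH
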