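import Pool.Agent.N819.UD.Stm2

/-!
# UE/COC: cocycles from an endomorphism of a free group
-/

set_option autoImplicit false

namespace Pool.Agent.N136.UE

open Pool.Agent.TH625.LOG Pool.Agent.N819.LT Pool.Agent.N819.UD

section

variable {V E F : Type} [Group F]

/-- the iterates -/
def it (φ : F →* F) : ℕ → (F →* F)
  | 0 => MonoidHom.id F
  | j + 1 => (it φ j).comp φ

theorem it_succ (φ : F →* F) (j : ℕ) (w : F) : it φ (j + 1) w = it φ j (φ w) := rfl

theorem help1 (L : LOG V E) (r : V) (φ : F →* F) (Ψ : F →* FreeGroup V)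
    (h : ∀ w, L.pr (Ψ (φ w)) = (L.gen r)⁻¹ * L.pr (Ψ w) * L.gen r) (j : ℕ) :
    ∀ w, L.pr (Ψ (it φ j w)) = (L.gen r ^ j)⁻¹ * L.pr (Ψ w) * L.gen r ^ j := by
  induction j with
  | zero =>
    intro w
    rw [pow_zero, inv_one, one_mul, mul_one]
    rfl
  | succ j ih =>
    intro w
    rw [it_succ, ih, h, pow_succ', mul_inv_rev]
    simp only [mul_assoc]

end

theorem main : S_COC := by
  intro V E F _ L r η φ Ψ h1 h2 h3 S
  classical
  obtain ⟨N, hN⟩ : ∃ N : ℤ, ∀ d ∈ S, Multiplicative.toAdd d.2 + 2 < N := by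
    obtain ⟨M, hM⟩ := (S.image fun d => Multiplicative.toAdd d.2 + 2).bddAbove
    refine ⟨M + 1, fun d hd => ?_⟩
    have h0 : Multiplicative.toAdd d.2 + 2 ≤ M :=
      hM (Finset.mem_coe.2 (Finset.mem_image_of_mem _ hd))
    omega
  obtain ⟨Cv, hCv⟩ : ∃ Cv : V → Multiplicative ℤ → FreeGroup V, ∀ v b, Cv v b =
      if Multiplicative.toAdd b < N then
        FreeGroup.of r ^ (N - Multiplicative.toAdd b).toNat *
          Ψ (it φ ((N - Multiplicative.toAdd b).toNat - 1) (η v)) *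
          (FreeGroup.of r ^ ((N - Multiplicative.toAdd b).toNat - 1))⁻¹
      else FreeGroup.of v := ⟨_, fun _ _ => rfl⟩
  have hval : ∀ (v : V) (b : Multiplicative ℤ) (j : ℕ), N - Multiplicative.toAdd b = j + 1 →
      Cv v b = FreeGroup.of r ^ (j + 1) * Ψ (it φ j (η v)) * (FreeGroup.of r ^ j)⁻¹ := by
    intro v b j hj
    have e1 : (N - Multiplicative.toAdd b).toNat = j + 1 := by omega
    rw [hCv, if_pos (by omega), e1, Nat.add_sub_cancel]
  have hpr : ∀ v b, L.pr (Cv v b) = L.gen v := by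
    intro v b
    by_cases hb : Multiplicative.toAdd b < N
    · obtain ⟨j, hj⟩ : ∃ j : ℕ, N - Multiplicative.toAdd b = j + 1 :=
        ⟨(N - Multiplicative.toAdd b - 1).toNat, by omega⟩
      rw [hval v b j hj]
      rw [map_mul, map_mul, map_inv, map_pow, map_pow, mk_of, help1 L r φ Ψ h3, h2, pow_succ]
      group
    · rw [hCv, if_neg hb]
      rfl
  obtain ⟨C, hC⟩ := exists_lift L (chi L) Cv hpr
  refine ⟨C, ?_⟩
  rintro ⟨e, b⟩ hd
  have hb := hN _ hd
  simp only at hb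
  obtain ⟨j, hj⟩ : ∃ j : ℕ, N - Multiplicative.toAdd b = (j + 1 : ℕ) + 1 :=
    ⟨(N - Multiplicative.toAdd b - 2).toNat, by omega⟩
  have hb' : N - Multiplicative.toAdd (b * Multiplicative.ofAdd 1) = (j : ℕ) + 1 := by
    rw [toAdd_mul, toAdd_ofAdd]
    push_cast at hj
    omega
  have s0 : L.sideA (chi L) (e, b) 0 = (L.ini e, b) := by
    show (L.ini e, b * chi L 1) = (L.ini e, b)
    rw [map_one, mul_one]
  have s1 : L.sideA (chi L) (e, b) 1 = (L.lab e, b * Multiplicative.ofAdd 1) := by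
    show (L.lab e, b * chi L (L.gen (L.ini e))) = (L.lab e, b * Multiplicative.ofAdd 1)
    rw [chi_gen]
  have s2 : L.sideA (chi L) (e, b) 2 = (L.lab e, b) := by
    show (L.lab e, b * chi L 1) = (L.lab e, b)
    rw [map_one, mul_one]
  have s3 : L.sideA (chi L) (e, b) 3 = (L.ter e, b * Multiplicative.ofAdd 1) := by
    show (L.ter e, b * chi L (L.gen (L.lab e))) = (L.ter e, b * Multiplicative.ofAdd 1)
    rw [chi_gen]
  show C.c b (L.rel e) = 1
  rw [C.rel, s0, s1, s2, s3]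
  simp only [hC]
  rw [hval _ b (j + 1) hj, hval _ b (j + 1) hj, hval _ _ j hb', hval _ _ j hb']
  have key : φ (η (L.ini e)) = φ (η (L.lab e)) * η (L.ter e) * (η (L.lab e))⁻¹ := by
    have h4 := h1 e
    rw [map_mul, map_inv, inv_mul_eq_iff_eq_mul] at h4
    rw [h4, mul_assoc]
  rw [it_succ, it_succ, key, map_mul, map_mul, map_inv, map_mul, map_mul, map_inv]
  group

end Pool.Agent.N136.UE
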