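import Pool.Agent.N709.UM.Stm2

/-!
# Project UM2, leaf BKP: the Birkhoff-Kakutani theorem for pseudonorms
-/

set_option autoImplicit false

open Filter Topology
open scoped NNReal

universe w

namespace Pool.Agent.N136.UM2

section seq

variable {P : Type w} [Group P] [TopologicalSpace P] [IsTopologicalGroup P]

lemma step (U : {U : Set P // U ∈ 𝓝 (1 : P)}) : ∃ V : {U : Set P // U ∈ 𝓝 (1 : P)},
    (∀ x ∈ V.1, x⁻¹ ∈ V.1) ∧ ∀ x ∈ V.1, ∀ y ∈ V.1, ∀ z ∈ V.1, x * y * z ∈ U.1 := by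
  obtain ⟨A, hA, h⟩ := exists_nhds_one_split4 U.2
  refine ⟨⟨A ∩ A⁻¹, inter_mem hA (inv_mem_nhds_one P hA)⟩, ?_, ?_⟩
  · rintro x ⟨h1, h2⟩
    refine ⟨h2, ?_⟩
    rw [Set.mem_inv, inv_inv]
    exact h1
  · rintro x ⟨hx, -⟩ y ⟨hy, -⟩ z ⟨hz, -⟩
    have := h hx hy hz (mem_of_mem_nhds hA)
    rwa [mul_one] at this

lemma exists_seq (V : Set P) (hV : V ∈ 𝓝 (1 : P)) : ∃ W : ℕ → Set P, (∀ n, W n ∈ 𝓝 (1 : P)) ∧
    (∀ n, ∀ x ∈ W n, x⁻¹ ∈ W n) ∧
    (∀ n, ∀ x ∈ W (n + 1), ∀ y ∈ W (n + 1), ∀ z ∈ W (n + 1), x * y * z ∈ W n) ∧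
    W 0 ⊆ V ∧ Antitone W := by
  choose f hf1 hf2 using step (P := P)
  have hs : ∀ U : {U : Set P // U ∈ 𝓝 (1 : P)}, (f U).1 ⊆ U.1 := by
    intro U x hx
    have h1 := mem_of_mem_nhds (f U).2
    have := hf2 U x hx 1 h1 1 h1
    rwa [mul_one, mul_one] at this
  have he : ∀ n : ℕ, f^[n + 1] ⟨V, hV⟩ = f (f^[n] ⟨V, hV⟩) := fun n =>
    Function.iterate_succ_apply' f n _
  refine ⟨fun n => (f^[n + 1] ⟨V, hV⟩).1, fun n => (f^[n + 1] ⟨V, hV⟩).2, ?_, ?_, ?_, ?_⟩
  · intro n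
    simp only [he n]
    exact hf1 _
  · intro n
    have := hf2 (f^[n + 1] ⟨V, hV⟩)
    rw [← he (n + 1)] at this
    exact this
  · exact hs ⟨V, hV⟩
  · apply antitone_nat_of_succ_le
    intro n
    have := hs (f^[n + 1] ⟨V, hV⟩)
    rw [← he (n + 1)] at this
    exact this

end seq

section dist

variable {P : Type w} [Group P]

lemma inv_dist (d : P → P → ℝ≥0) (h1 : ∀ x, d x x = 0) (h2 : ∀ x y, d x y = d y x)
    (h3 : ∀ g x y, d (g * x) (g * y) = d x y) (g x y : P) :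
    @dist P (@PseudoMetricSpace.toDist P (PseudoMetricSpace.ofPreNNDist d h1 h2)) (g * x) (g * y) ≤
    @dist P (@PseudoMetricSpace.toDist P (PseudoMetricSpace.ofPreNNDist d h1 h2)) x y := by
  rw [PseudoMetricSpace.dist_ofPreNNDist, PseudoMetricSpace.dist_ofPreNNDist, NNReal.coe_le_coe]
  refine le_ciInf fun l => (ciInf_le (OrderBot.bddBelow _) (l.map (g * ·))).trans_eq ?_
  have e1 : g * x :: l.map (g * ·) = (x :: l).map (g * ·) := by simp
  have e2 : l.map (g * ·) ++ [g * y] = (l ++ [y]).map (g * ·) := by simp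
  rw [e1, e2, List.zipWith_map]
  simp only [h3]

end dist

theorem bkp : Pool.Agent.N709.UM.Bkp.{w} := by
  intro P _ _ _ V hV
  classical
  obtain ⟨W, hW1, hWs, hW3, hW0, hWa⟩ := exists_seq V hV
  have hone : ∀ n, (1 : P) ∈ W n := fun n => mem_of_mem_nhds (hW1 n)
  let d : P → P → ℝ≥0 := fun x y =>
    if h : ∃ n, x⁻¹ * y ∉ W n then (1 / 2) ^ Nat.find h else 0
  have hr : (1 / 2 : ℝ≥0) ∈ Set.Ioo (0 : ℝ≥0) 1 := ⟨half_pos one_pos, NNReal.half_lt_self one_ne_zero⟩
  have hd0 : ∀ x, d x x = 0 := by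
    intro x
    have : ¬ ∃ n, x⁻¹ * x ∉ W n := by
      rw [inv_mul_cancel]
      push Not
      exact hone
    simp only [d]
    rw [dif_neg this]
  have hsymm : ∀ n x y, x⁻¹ * y ∈ W n ↔ y⁻¹ * x ∈ W n := by
    intro n x y
    constructor
    · intro h
      have := hWs n _ h
      rwa [mul_inv_rev, inv_inv] at this
    · intro h
      have := hWs n _ h
      rwa [mul_inv_rev, inv_inv] at this
  have hds : ∀ x y, d x y = d y x := by
    intro x y
    simp only [d, hsymm _ x y]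
  have hdi : ∀ g x y, d (g * x) (g * y) = d x y := by
    intro g x y
    have : (g * x)⁻¹ * (g * y) = x⁻¹ * y := by group
    simp only [d, this]
  have hle_d : ∀ {x y : P} {n : ℕ}, (1 / 2) ^ n ≤ d x y ↔ x⁻¹ * y ∉ W n := by
    intro x y n
    dsimp only [d]
    split_ifs with h
    · rw [(pow_right_strictAnti₀ hr.1 hr.2).le_iff_ge, Nat.find_le_iff]
      exact ⟨fun ⟨m, hmn, hm⟩ hn => hm (hWa hmn hn), fun h => ⟨n, le_rfl, h⟩⟩
    · push Not at h
      simp only [h, not_true, (pow_pos hr.1 _).not_ge]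
  let I := PseudoMetricSpace.ofPreNNDist d hd0 hds
  have hdist_le : ∀ x y, @dist P I.toDist x y ≤ d x y := PseudoMetricSpace.dist_ofPreNNDist_le _ _ _
  have hd_le : ∀ x y, ↑(d x y) ≤ 2 * @dist P I.toDist x y := by
    refine PseudoMetricSpace.le_two_mul_dist_ofPreNNDist _ _ _ fun x₁ x₂ x₃ x₄ => ?_
    by_cases H : ∃ n, x₁⁻¹ * x₄ ∉ W n
    · refine (dif_pos H).trans_le ?_
      rw [← div_le_iff₀' zero_lt_two, ← mul_one_div (_ ^ _), ← pow_succ]
      simp only [le_max_iff, hle_d, ← not_and_or]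
      rintro ⟨h₁₂, h₂₃, h₃₄⟩
      refine Nat.find_spec H ?_
      have := hW3 _ _ h₁₂ _ h₂₃ _ h₃₄
      have e : x₁⁻¹ * x₂ * (x₂⁻¹ * x₃) * (x₃⁻¹ * x₄) = x₁⁻¹ * x₄ := by group
      rwa [e] at this
    · exact (dif_neg H).trans_le zero_le
  -- the pseudonorm
  let D : P → ℝ := fun g => @dist P I.toDist 1 g
  have hD0 : ∀ g, 0 ≤ D g := fun g => @dist_nonneg P I 1 g
  have hinv : ∀ g x y, @dist P I.toDist (g * x) (g * y) = @dist P I.toDist x y := by
    intro g x y
    refine le_antisymm (inv_dist d hd0 hds hdi g x y) ?_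
    have := inv_dist d hd0 hds hdi g⁻¹ (g * x) (g * y)
    rwa [inv_mul_cancel_left, inv_mul_cancel_left] at this
  have hD1 : D 1 = 0 := @dist_self P I 1
  have hDi : ∀ g, D g⁻¹ = D g := by
    intro g
    have h1 := hinv g 1 g⁻¹
    rw [mul_one, mul_inv_cancel] at h1
    have h2 : @dist P I.toDist g 1 = @dist P I.toDist 1 g := @dist_comm P I g 1
    show @dist P I.toDist 1 g⁻¹ = @dist P I.toDist 1 g
    rw [← h1, h2]
  have hDm : ∀ g h, D (g * h) ≤ D g + D h := by
    intro g h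
    have h1 := hinv g 1 h
    rw [mul_one] at h1
    have h2 : @dist P I.toDist 1 (g * h) ≤ @dist P I.toDist 1 g + @dist P I.toDist g (g * h) :=
      @dist_triangle P I 1 g (g * h)
    rw [h1] at h2
    exact h2
  have hpn : Pool.Agent.N709.UM.PN fun g => min 1 (4 * D g) := by
    refine ⟨?_, ?_, ?_⟩
    · simp [hD1]
    · intro g
      simp only [hDi]
    · intro g h
      have h1 := hDm g h
      have h2 := hD0 g
      have h3 := hD0 h
      show min 1 (4 * D (g * h)) ≤ min 1 (4 * D g) + min 1 (4 * D h)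
      rcases le_total 1 (4 * D g) with h4 | h4
      · rw [min_eq_left h4]
        have h5 : 0 ≤ min 1 (4 * D h) := le_min zero_le_one (by linarith)
        exact (min_le_left _ _).trans (by linarith)
      · rcases le_total 1 (4 * D h) with h5 | h5
        · rw [min_eq_left h5]
          have h6 : 0 ≤ min 1 (4 * D g) := le_min zero_le_one (by linarith)
          exact (min_le_left _ _).trans (by linarith)
        · rw [min_eq_right h4, min_eq_right h5]
          exact (min_le_right _ _).trans (by linarith)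
  refine ⟨fun g => min 1 (4 * D g), hpn, ?_, fun g => min_le_left _ _, ?_⟩
  · -- continuity
    have habs : ∀ g₀ g, |min 1 (4 * D g) - min 1 (4 * D g₀)| ≤ min 1 (4 * D (g₀⁻¹ * g)) := by
      intro g₀ g
      have h1 := hpn.mul g₀ (g₀⁻¹ * g)
      have h2 := hpn.mul g (g₀⁻¹ * g)⁻¹
      have h3 := hpn.inv (g₀⁻¹ * g)
      beta_reduce at h1 h2 h3
      rw [mul_inv_cancel_left] at h1
      have e : g * (g₀⁻¹ * g)⁻¹ = g₀ := by group
      rw [e, h3] at h2
      rw [abs_le]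
      constructor <;> linarith
    rw [continuous_iff_continuousAt]
    intro g₀
    rw [ContinuousAt, Metric.tendsto_nhds]
    intro ε hε
    obtain ⟨n, hn⟩ := exists_pow_lt_of_lt_one (show 0 < ε / 4 by linarith)
      (show (1 / 2 : ℝ) < 1 by norm_num)
    have hc : Tendsto (fun g => g₀⁻¹ * g) (𝓝 g₀) (𝓝 1) := by
      have h1 : Continuous fun g : P => g₀⁻¹ * g := continuous_const.mul continuous_id
      have h2 := h1.tendsto g₀
      rwa [inv_mul_cancel] at h2
    filter_upwards [hc (hW1 n)] with g hg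
    rw [Real.dist_eq]
    refine (habs g₀ g).trans_lt ((min_le_right _ _).trans_lt ?_)
    have h1 : d 1 (g₀⁻¹ * g) < (1 / 2) ^ n := by
      rw [← not_le, hle_d, inv_one, one_mul, not_not]
      exact hg
    have h2 : ((d 1 (g₀⁻¹ * g) : ℝ≥0) : ℝ) < (1 / 2) ^ n := by
      have h3 := NNReal.coe_lt_coe.2 h1
      push_cast at h3
      exact h3
    have h3 := hdist_le 1 (g₀⁻¹ * g)
    show 4 * @dist P I.toDist 1 (g₀⁻¹ * g) < ε
    linarith
  · intro g hg
    have h1 : 4 * D g < 1 := by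
      by_contra hc
      push Not at hc
      simp only [min_eq_left hc] at hg
      exact lt_irrefl _ hg
    have h2 := hd_le 1 g
    have h3 : ((d 1 g : ℝ≥0) : ℝ) < ((1 / 2 : ℝ≥0) : ℝ) := by
      have h4 : 4 * @dist P I.toDist 1 g < 1 := h1
      push_cast
      linarith
    have h4 : d 1 g < (1 / 2) ^ 1 := by
      rw [pow_one]
      exact NNReal.coe_lt_coe.1 h3
    rw [← not_le, hle_d, inv_one, one_mul, not_not] at h4
    exact hW0 (hWa (Nat.zero_le 1) h4)

end Pool.Agent.N136.UM2
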